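import Pool.Agent.Helper99.NX.Hit

/-!
# The hitting lemma, fractional form

`V1`, `V2` are arbitrary functions which give for every word `y` in `A ^ ι` a set of pairs `(z, l)` with `z` in `A` and
`l` in `Λ`. For few pairs `(y₁, y₂)` the set `V1 y₂ ∩ V2 y₁` has density at least `μ`, but for each letter `w` of the
word `w₀ + y₁ + y₂` the part of the `l` with `(w, l)` in this set is at most `ν < μ`.
-/

set_option autoImplicit false
set_option linter.unusedSectionVars false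

namespace Pool.Agent.Helper99.NQ.Hit

open Finset Pool.Agent.Helper99.NX

variable {A ι Λ : Type} [AddCommGroup A] [Fintype A] [DecidableEq A] [Fintype ι] [DecidableEq ι] [Fintype Λ]
  [DecidableEq Λ]

/-- The indicator function of `V`. -/
def ind (V : (ι → A) → Finset (A × Λ)) (z : A × Λ) (y : ι → A) : ℂ := if z ∈ V y then 1 else 0

/-- The product of several of them. -/
def inds {t : ℕ} (V : (ι → A) → Finset (A × Λ)) (z : Fin t → A × Λ) (y : ι → A) : ℂ := ∏ j, ind V (z j) y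

theorem norm_inds_le {t : ℕ} (V : (ι → A) → Finset (A × Λ)) (z : Fin t → A × Λ) (y : ι → A) : ‖inds V z y‖ ≤ 1 := by
  unfold inds
  rw [norm_prod]
  refine prod_le_one (fun j _ => norm_nonneg _) fun j _ => ?_
  unfold ind
  split_ifs <;> simp

/-- The part of `V1 y₂ ∩ V2 y₁`, minus its part over the letter `w`. -/
noncomputable def dev (V1 V2 : (ι → A) → Finset (A × Λ)) (y₁ y₂ : ι → A) (w : A) : ℂ :=
  ∑ z : A × Λ, (1 / (Fintype.card A : ℂ) - if w = z.1 then 1 else 0) *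
    (1 / (Fintype.card Λ : ℂ) * (ind V1 z y₂ * ind V2 z y₁))

/-- The sum over all pairs of words of a product of deviations, for a set `s` of `t` letters. -/
theorem sum_prod_dev (V1 V2 : (ι → A) → Finset (A × Λ)) (w₀ : ι → A) {t : ℕ} (s : Finset ι) (hs : s.card = t) :
    ‖∑ y₁ : ι → A, ∑ y₂ : ι → A, ∏ c ∈ s, dev V1 V2 y₁ y₂ (w₀ c + y₁ c + y₂ c)‖ ≤
      ∑ z : Fin t → A × Λ, (1 / (Fintype.card Λ : ℝ)) ^ t * ∑ χ : ι → AddChar A ℂ,
        ‖∏ c, kaps s c (χ c)‖ * (‖coef (inds V1 z) χ‖ * ‖coef (inds V2 z) χ‖) := by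
  classical
  set e : s ≃ Fin t := s.equivFinOfCardEq hs with he
  -- the extension of a word
  let zz : (Fin t → A × Λ) → ι → A := fun z c => if h : c ∈ s then (z (e ⟨c, h⟩)).1 else 0
  have hzz : ∀ z j, zz z (e.symm j) = (z j).1 := by
    intro z j
    have h1 : ((e.symm j : s) : ι) ∈ s := (e.symm j).2
    simp only [zz, dif_pos h1]
    congr 2
    exact e.apply_symm_apply j
  -- products over `s`
  have hprod : ∀ f : ι → ℂ, ∏ c ∈ s, f c = ∏ j, f (e.symm j) := by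
    intro f
    rw [← prod_coe_sort s f]
    exact (Equiv.prod_comp e.symm (fun c : s => f c)).symm
  have h1 : ∀ y₁ y₂ : ι → A, ∏ c ∈ s, dev V1 V2 y₁ y₂ (w₀ c + y₁ c + y₂ c) =
      ∑ z : Fin t → A × Λ, (∏ c ∈ s, (1 / (Fintype.card A : ℂ) - if w₀ c + y₁ c + y₂ c = zz z c then 1 else 0)) *
        ((1 / (Fintype.card Λ : ℂ)) ^ t * (inds V1 z y₂ * inds V2 z y₁)) := by
    intro y₁ y₂
    rw [hprod]
    unfold dev
    rw [prod_univ_sum, Fintype.piFinset_univ]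
    refine sum_congr rfl fun z _ => ?_
    rw [prod_mul_distrib, prod_mul_distrib, prod_mul_distrib, hprod, prod_const, card_univ, Fintype.card_fin]
    simp_rw [hzz]
    rfl
  have h2 : ∀ z : Fin t → A × Λ, ∑ y₁ : ι → A, ∑ y₂ : ι → A,
      (∏ c ∈ s, (1 / (Fintype.card A : ℂ) - if w₀ c + y₁ c + y₂ c = zz z c then 1 else 0)) *
        ((1 / (Fintype.card Λ : ℂ)) ^ t * (inds V1 z y₂ * inds V2 z y₁)) =
      (1 / (Fintype.card Λ : ℂ)) ^ t * ∑ χ : ι → AddChar A ℂ, (∏ c, kaps s c (χ c)) * (pch χ (w₀ - zz z) *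
        (coef (inds V1 z) χ * coef (inds V2 z) χ)) := by
    intro z
    have h3 : ∀ y₁ y₂ : ι → A,
        ∏ c ∈ s, (1 / (Fintype.card A : ℂ) - if w₀ c + y₁ c + y₂ c = zz z c then 1 else 0) =
        ∑ χ : ι → AddChar A ℂ, (∏ c, kaps s c (χ c)) * (pch χ (w₀ - zz z) * (pch χ y₁ * pch χ y₂)) := by
      intro y₁ y₂
      have h4 := sum_kaps s (w₀ + y₁ + y₂) (zz z)
      simp only [Pi.add_apply] at h4
      rw [← h4]
      refine sum_congr rfl fun χ _ => ?_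
      rw [show w₀ + y₁ + y₂ - zz z = (w₀ - zz z) + (y₁ + y₂) by abel, pch_add, pch_add]
    simp_rw [h3, sum_mul]
    rw [sum_congr rfl fun y₁ _ => sum_comm, sum_comm, mul_sum]
    refine sum_congr rfl fun χ _ => ?_
    rw [coef, coef, sum_mul_sum, mul_sum, mul_sum, mul_sum]
    rw [sum_comm]
    refine sum_congr rfl fun y₂ _ => ?_
    rw [mul_sum, mul_sum, mul_sum]
    refine sum_congr rfl fun y₁ _ => ?_
    ring
  simp_rw [h1]
  rw [sum_congr rfl fun y₁ _ => sum_comm, sum_comm]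
  refine (norm_sum_le _ _).trans (sum_le_sum fun z _ => ?_)
  rw [h2, norm_mul]
  have h5 : ‖(1 / (Fintype.card Λ : ℂ)) ^ t‖ = (1 / (Fintype.card Λ : ℝ)) ^ t := by
    rw [norm_pow, norm_div, norm_one, Complex.norm_natCast]
  rw [h5]
  refine mul_le_mul_of_nonneg_left ?_ (by positivity)
  refine (norm_sum_le _ _).trans (sum_le_sum fun χ _ => ?_)
  rw [norm_mul, norm_mul, norm_pch, one_mul, norm_mul]

theorem sum_powersetCard_dev [Nonempty Λ] (V1 V2 : (ι → A) → Finset (A × Λ)) (w₀ : ι → A) (t : ℕ) :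
    ‖∑ s ∈ powersetCard t (univ : Finset ι), ∑ y₁ : ι → A, ∑ y₂ : ι → A,
        ∏ c ∈ s, dev V1 V2 y₁ y₂ (w₀ c + y₁ c + y₂ c)‖ ≤ ((Fintype.card A : ℝ) ^ Fintype.card ι) ^ 2 := by
  have hk : (Fintype.card A : ℝ) ≠ 0 := Nat.cast_ne_zero.2 Fintype.card_ne_zero
  have hl : (Fintype.card Λ : ℝ) ≠ 0 := Nat.cast_ne_zero.2 Fintype.card_ne_zero
  calc ‖∑ s ∈ powersetCard t (univ : Finset ι), ∑ y₁ : ι → A, ∑ y₂ : ι → A,
        ∏ c ∈ s, dev V1 V2 y₁ y₂ (w₀ c + y₁ c + y₂ c)‖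
      ≤ ∑ s ∈ powersetCard t (univ : Finset ι), ∑ z : Fin t → A × Λ, (1 / (Fintype.card Λ : ℝ)) ^ t *
        ∑ χ : ι → AddChar A ℂ, ‖∏ c, kaps s c (χ c)‖ * (‖coef (inds V1 z) χ‖ * ‖coef (inds V2 z) χ‖) :=
        (norm_sum_le _ _).trans (sum_le_sum fun s hs => sum_prod_dev V1 V2 w₀ s (mem_powersetCard.1 hs).2)
    _ = ∑ z : Fin t → A × Λ, (1 / (Fintype.card Λ : ℝ)) ^ t * ∑ χ : ι → AddChar A ℂ,
        (∑ s ∈ powersetCard t (univ : Finset ι),
        ‖∏ c, kaps s c (χ c)‖) * (‖coef (inds V1 z) χ‖ * ‖coef (inds V2 z) χ‖) := by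
        rw [sum_comm]
        refine sum_congr rfl fun z _ => ?_
        rw [← mul_sum, sum_comm]
        congr 1
        refine sum_congr rfl fun χ _ => ?_
        rw [sum_mul]
    _ ≤ ∑ z : Fin t → A × Λ, (1 / (Fintype.card Λ : ℝ)) ^ t * ∑ χ : ι → AddChar A ℂ,
        (1 / (Fintype.card A : ℝ)) ^ t * (‖coef (inds V1 z) χ‖ * ‖coef (inds V2 z) χ‖) :=
        sum_le_sum fun z _ => mul_le_mul_of_nonneg_left
          (sum_le_sum fun χ _ => mul_le_mul_of_nonneg_right (sum_norm_kaps t χ) (by positivity)) (by positivity)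
    _ ≤ ∑ _z : Fin t → A × Λ, (1 / (Fintype.card Λ : ℝ)) ^ t * ((1 / (Fintype.card A : ℝ)) ^ t *
        ((Fintype.card A : ℝ) ^ Fintype.card ι) ^ 2) := by
        refine sum_le_sum fun z _ => mul_le_mul_of_nonneg_left ?_ (by positivity)
        rw [← mul_sum]
        exact mul_le_mul_of_nonneg_left (sum_coef_le _ _ (norm_inds_le V1 z) (norm_inds_le V2 z)) (by positivity)
    _ = ((Fintype.card A : ℝ) ^ Fintype.card ι) ^ 2 := by
        rw [sum_const, card_univ, Fintype.card_fun, Fintype.card_fin, Fintype.card_prod, nsmul_eq_mul]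
        push_cast
        rw [← mul_assoc, ← mul_assoc, ← mul_pow, ← mul_pow,
          show (Fintype.card A : ℝ) * Fintype.card Λ * (1 / (Fintype.card Λ : ℝ)) * (1 / (Fintype.card A : ℝ)) = 1 by
            field_simp, one_pow, one_mul]

/-- The number of `l` with `(w, l)` in `V`. -/
def fib (V : Finset (A × Λ)) (w : A) : ℕ := (univ.filter (fun l : Λ => (w, l) ∈ V)).card

theorem dev_eq [Nonempty Λ] (V1 V2 : (ι → A) → Finset (A × Λ)) (y₁ y₂ : ι → A) (w : A) :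
    dev V1 V2 y₁ y₂ w =
      (((V1 y₂ ∩ V2 y₁).card / (Fintype.card (A × Λ) : ℝ) - fib (V1 y₂ ∩ V2 y₁) w / (Fintype.card Λ : ℝ) : ℝ) : ℂ) := by
  have hl : (Fintype.card Λ : ℂ) ≠ 0 := Nat.cast_ne_zero.2 Fintype.card_ne_zero
  have hk : (Fintype.card A : ℂ) ≠ 0 := Nat.cast_ne_zero.2 Fintype.card_ne_zero
  unfold dev
  have h1 : ∀ z, ind V1 z y₂ * ind V2 z y₁ = if z ∈ V1 y₂ ∩ V2 y₁ then 1 else 0 := by
    intro z
    unfold ind
    by_cases h2 : z ∈ V1 y₂ <;> by_cases h3 : z ∈ V2 y₁ <;> simp [h2, h3]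
  simp_rw [h1, sub_mul, sum_sub_distrib]
  rw [← mul_sum, ← mul_sum]
  have h2 : ∑ z : A × Λ, (if z ∈ V1 y₂ ∩ V2 y₁ then (1 : ℂ) else 0) = (V1 y₂ ∩ V2 y₁).card := by
    rw [sum_ite_mem, univ_inter, sum_const, nsmul_eq_mul, mul_one]
  rw [h2]
  have h3 : ∑ z : A × Λ, (if w = z.1 then (1 : ℂ) else 0) *
      (1 / (Fintype.card Λ : ℂ) * (if z ∈ V1 y₂ ∩ V2 y₁ then (1 : ℂ) else 0)) =
      1 / (Fintype.card Λ : ℂ) * fib (V1 y₂ ∩ V2 y₁) w := by
    rw [Fintype.sum_prod_type]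
    simp_rw [ite_mul, one_mul, zero_mul]
    rw [sum_comm]
    simp_rw [sum_ite_eq univ w, if_pos (mem_univ _)]
    rw [← mul_sum, sum_boole]
    rfl
  rw [h3, Fintype.card_prod]
  push_cast
  field_simp

/-- The hitting lemma. -/
theorem hitting_aux [Nonempty Λ] (V1 V2 : (ι → A) → Finset (A × Λ)) (w₀ : ι → A) (μ ν : ℝ) (hμ : ν ≤ μ) :
    (Nat.card {y : (ι → A) × (ι → A) // μ * Fintype.card (A × Λ) ≤ (V1 y.2 ∩ V2 y.1).card ∧
        ∀ c, (fib (V1 y.2 ∩ V2 y.1) (w₀ c + y.1 c + y.2 c) : ℝ) ≤ ν * Fintype.card Λ} : ℝ) *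
        (1 + (μ - ν) / 2) ^ Fintype.card ι ≤
      2 * ((Fintype.card A : ℝ) ^ Fintype.card ι) ^ 2 := by
  classical
  have hk : (0 : ℝ) < Fintype.card A := Nat.cast_pos.2 Fintype.card_pos
  have hl : (0 : ℝ) < Fintype.card Λ := Nat.cast_pos.2 Fintype.card_pos
  have hkl : (0 : ℝ) < Fintype.card (A × Λ) := Nat.cast_pos.2 Fintype.card_pos
  -- the real deviations
  let x : (ι → A) → (ι → A) → ι → ℝ := fun y₁ y₂ c =>
    (V1 y₂ ∩ V2 y₁).card / (Fintype.card (A × Λ) : ℝ) -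
      fib (V1 y₂ ∩ V2 y₁) (w₀ c + y₁ c + y₂ c) / (Fintype.card Λ : ℝ)
  have hx : ∀ y₁ y₂ c, dev V1 V2 y₁ y₂ (w₀ c + y₁ c + y₂ c) = (x y₁ y₂ c : ℂ) := fun y₁ y₂ c => dev_eq _ _ _ _ _
  have hx1 : ∀ y₁ y₂ c, 0 ≤ 1 + 1 / 2 * x y₁ y₂ c := by
    intro y₁ y₂ c
    have h1 : (0 : ℝ) ≤ (V1 y₂ ∩ V2 y₁).card / (Fintype.card (A × Λ) : ℝ) := by positivity
    have h2 : fib (V1 y₂ ∩ V2 y₁) (w₀ c + y₁ c + y₂ c) / (Fintype.card Λ : ℝ) ≤ 1 := by
      rw [div_le_one hl]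
      exact_mod_cast card_le_univ _
    simp only [x]
    linarith
  -- the upper bound
  have hup : ∑ y₁ : ι → A, ∑ y₂ : ι → A, ∏ c, (1 + 1 / 2 * x y₁ y₂ c) ≤
      2 * ((Fintype.card A : ℝ) ^ Fintype.card ι) ^ 2 := by
    have h1 : ((∑ y₁ : ι → A, ∑ y₂ : ι → A, ∏ c, (1 + 1 / 2 * x y₁ y₂ c) : ℝ) : ℂ) =
        ∑ t ∈ range (Fintype.card ι + 1), (1 / 2 : ℂ) ^ t * ∑ s ∈ powersetCard t (univ : Finset ι),
          ∑ y₁ : ι → A, ∑ y₂ : ι → A, ∏ c ∈ s, dev V1 V2 y₁ y₂ (w₀ c + y₁ c + y₂ c) := by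
      have h2 : ∀ y₁ y₂ : ι → A, ((∏ c, (1 + 1 / 2 * x y₁ y₂ c) : ℝ) : ℂ) =
          ∑ t ∈ range (Fintype.card ι + 1), ∑ s ∈ powersetCard t (univ : Finset ι),
            (1 / 2 : ℂ) ^ t * ∏ c ∈ s, dev V1 V2 y₁ y₂ (w₀ c + y₁ c + y₂ c) := by
        intro y₁ y₂
        rw [prod_one_add, sum_powerset, Complex.ofReal_sum]
        refine sum_congr (by rw [card_univ]) fun t _ => ?_
        rw [Complex.ofReal_sum]
        refine sum_congr rfl fun s hs => ?_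
        rw [prod_mul_distrib, prod_const, (mem_powersetCard.1 hs).2]
        simp_rw [hx]
        push_cast
        rfl
      rw [Complex.ofReal_sum]
      simp_rw [Complex.ofReal_sum, h2]
      simp_rw [mul_sum]
      rw [sum_congr rfl fun y₁ _ => sum_comm, sum_comm]
      refine sum_congr rfl fun t _ => ?_
      rw [sum_congr rfl fun y₁ _ => sum_comm, sum_comm]
    have h3 : ‖((∑ y₁ : ι → A, ∑ y₂ : ι → A, ∏ c, (1 + 1 / 2 * x y₁ y₂ c) : ℝ) : ℂ)‖ ≤
        2 * ((Fintype.card A : ℝ) ^ Fintype.card ι) ^ 2 := by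
      rw [h1]
      calc _ ≤ ∑ t ∈ range (Fintype.card ι + 1), (1 / 2 : ℝ) ^ t * ((Fintype.card A : ℝ) ^ Fintype.card ι) ^ 2 := by
            refine (norm_sum_le _ _).trans (sum_le_sum fun t _ => ?_)
            rw [norm_mul, norm_pow]
            have h4 : ‖(1 / 2 : ℂ)‖ = 1 / 2 := by norm_num
            rw [h4]
            exact mul_le_mul_of_nonneg_left (sum_powersetCard_dev V1 V2 w₀ t) (by positivity)
        _ ≤ 2 * ((Fintype.card A : ℝ) ^ Fintype.card ι) ^ 2 := by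
            rw [← sum_mul]
            exact mul_le_mul_of_nonneg_right (sum_geometric_two_le _) (by positivity)
    rw [Complex.norm_real] at h3
    exact (le_abs_self _).trans h3
  -- the lower bound
  refine le_trans ?_ hup
  rw [← Fintype.sum_prod_type']
  let G : (ι → A) × (ι → A) → Prop := fun y => μ * Fintype.card (A × Λ) ≤ (V1 y.2 ∩ V2 y.1).card ∧
        ∀ c, (fib (V1 y.2 ∩ V2 y.1) (w₀ c + y.1 c + y.2 c) : ℝ) ≤ ν * Fintype.card Λ
  calc (Nat.card {y // G y} : ℝ) * (1 + (μ - ν) / 2) ^ Fintype.card ι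
      = ∑ y ∈ univ.filter G, (1 + (μ - ν) / 2) ^ Fintype.card ι := by
        rw [sum_const, nsmul_eq_mul, Nat.card_eq_fintype_card, Fintype.card_subtype]
    _ ≤ ∑ y ∈ univ.filter G, ∏ c, (1 + 1 / 2 * x y.1 y.2 c) := by
        refine sum_le_sum fun y hy => ?_
        obtain ⟨-, h1, h2⟩ := mem_filter.1 hy
        have h3 : μ ≤ (V1 y.2 ∩ V2 y.1).card / (Fintype.card (A × Λ) : ℝ) := (le_div_iff₀ hkl).2 h1
        calc (1 + (μ - ν) / 2) ^ Fintype.card ι = ∏ _c : ι, (1 + (μ - ν) / 2) := by rw [prod_const, card_univ]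
          _ ≤ _ := by
              refine prod_le_prod (fun c _ => by linarith) fun c _ => ?_
              simp only [x]
              have h4 : fib (V1 y.2 ∩ V2 y.1) (w₀ c + y.1 c + y.2 c) / (Fintype.card Λ : ℝ) ≤ ν := by
                rw [div_le_iff₀ hl]
                exact h2 c
              linarith
    _ ≤ ∑ y : (ι → A) × (ι → A), ∏ c, (1 + 1 / 2 * x y.1 y.2 c) :=
        sum_le_sum_of_subset_of_nonneg (filter_subset _ _) fun y _ _ => prod_nonneg fun c _ => hx1 _ _ _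

end Pool.Agent.Helper99.NQ.Hit

namespace Pool.Agent.Helper99.NQ

open Finset

open Classical in
/-- The hitting lemma, without decidability assumptions. -/
theorem hitting {A ι Λ : Type} [AddCommGroup A] [Fintype A] [Fintype ι] [Fintype Λ] [Nonempty Λ]
    (V1 V2 : (ι → A) → Finset (A × Λ)) (w₀ : ι → A) (μ ν : ℝ) (hμ : ν ≤ μ) :
    (Nat.card {y : (ι → A) × (ι → A) // μ * Fintype.card (A × Λ) ≤ (V1 y.2 ∩ V2 y.1).card ∧
        ∀ c, ((univ.filter (fun l : Λ => (w₀ c + y.1 c + y.2 c, l) ∈ V1 y.2 ∩ V2 y.1)).card : ℝ) ≤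
          ν * Fintype.card Λ} : ℝ) * (1 + (μ - ν) / 2) ^ Fintype.card ι ≤
      2 * ((Fintype.card A : ℝ) ^ Fintype.card ι) ^ 2 :=
  Hit.hitting_aux V1 V2 w₀ μ ν hμ

end Pool.Agent.Helper99.NQ
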