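import Pool.Agent.Helper99.NQ.Final

/-!
A problem over the alphabet `F` (a finite field; `ZMod 2` for bits), given by a network with `a + 1` rows of `M ^ 2 a`
nodes with `m` letters in the `F`-space `B` and one table; the block of the cell `b` has one symbol in `F` for every
word `w`, and stands for the word which is the sum of the words `w`, multiplied by their symbols. Nondeterministic
programs which query single symbols and whose computations with a result leave a part `1 / q + δ` of the symbols unread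
need more than `2 ^ a` states, even on average, and the same for nondeterministic pushdown programs with `2 ^ b` steps;
a deterministic pushdown program of polynomial size solves the problem.
-/

namespace Pool.Agent.Results.MP_4e849b_lc.NondeterministicBits

open Pool.Agent.Helper19.NF Pool.Agent.Helper99.NQ
open Pool.Agent.Helper74.NW hiding fine fine_apply full hole chg InX
open Pool.Agent.Helper74.NE (fine fine_apply)

theorem result (F : Type) [Field F] [Fintype F] (δ : ℝ) (hδ : 0 < δ) :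
    ∃ (C M m : ℕ) (_ : NeZero m), 1 < M ∧ ∀ a : ℕ, 1 ≤ a →
      ∃ g : Fin (5 * M ^ 2) → Equiv.Perm (Fin (M ^ 2 * a)),
      ∀ (B : Type) [AddCommGroup B] [Module F B] [Fintype B] (x0 : Fin (M ^ 2 * a) × Fin m → B),
      Function.Injective x0 → ∀ (k N : ℕ) (q E θ : ℝ) (c0 : Fin (5 * M ^ 2) × Fin m),
      k = Nat.card B → C * a ^ 4 ≤ k → N = Nat.card (B × Word (5 * M ^ 2) m B) → q = Nat.card F →
      E = C * a ^ 4 / k + 1 / 2 ^ a → θ = (1 - 1 / q - δ) * N →
      N = k ^ (5 * M ^ 2 * m + 1) ∧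
      (∀ (S : ℕ) (Z : Type) (P : NProg (B × Word (5 * M ^ 2) m B) F Z S), S ≤ 2 ^ a →
        (∀ Acc : Z → B → Prop, (∀ z, ∃ y, ¬ Acc z y) →
          (∀ I l z, P.Ends I l z → Acc z (res (fine g) x0 a c0 (tab I))) →
          (Nat.card {I : B × Word (5 * M ^ 2) m B → F // (∃ l z, P.Ends I l z) ∧
            ∀ l z, P.Ends I l z → (Nat.card {x // x ∈ l} : ℝ) ≤ θ} : ℝ) ≤
            E * Nat.card (B × Word (5 * M ^ 2) m B → F)) ∧
        (∀ (φ : B → Z) (p r : ℕ), (∀ z, Nat.card {x // φ x = z} ≤ p) → p * Nat.card F ^ (2 * r) ≤ k →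
          (Nat.card {I : B × Word (5 * M ^ 2) m B → F // (∃ l z, P.Ends I l z) ∧
            ∀ l z, P.Ends I l z → z = φ (res (fine g) x0 a c0 (tab I)) ∧ (Nat.card {x // x ∈ l} : ℝ) ≤ θ} : ℝ) ≤
            (E + C / (1 + q * δ / 4) ^ r) * Nat.card (B × Word (5 * M ^ 2) m B → F)) ∧
        (∀ (Y : Set B), Nat.card F * Nat.card Y ≤ k →
          (Nat.card {I : B × Word (5 * M ^ 2) m B → F // res (fine g) x0 a c0 (tab I) ∈ Y ∧
            (∃ l z, P.Ends I l z) ∧ ∀ l z, P.Ends I l z → (Nat.card {x // x ∈ l} : ℝ) ≤ θ} : ℝ) ≤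
            E * Nat.card (B × Word (5 * M ^ 2) m B → F) +
              C * Nat.card {I : B × Word (5 * M ^ 2) m B → F // res (fine g) x0 a c0 (tab I) ∉ Y ∧
                ∃ l z, P.Ends I l z})) ∧
      (∀ (b : ℕ) (Z Q Γ : Type) (_ : Finite Q) (P : NPProg (B × Word (5 * M ^ 2) m B) F Z Q Γ),
        (2 * Nat.card Q ^ 2 + 2) ^ (b + 2) ≤ 2 ^ a →
        (∀ Acc : Z → B → Prop, (∀ z, ∃ y, ¬ Acc z y) →
          (∀ I l j z, P.Ends I l j z → Acc z (res (fine g) x0 a c0 (tab I))) →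
          (Nat.card {I : B × Word (5 * M ^ 2) m B → F // (∃ l j z, P.Ends I l j z ∧ j ≤ 2 ^ b) ∧
            ∀ l j z, P.Ends I l j z → (Nat.card {x // x ∈ l} : ℝ) ≤ θ} : ℝ) ≤
            E * Nat.card (B × Word (5 * M ^ 2) m B → F)) ∧
        (∀ (φ : B → Z) (p r : ℕ), (∀ z, Nat.card {x // φ x = z} ≤ p) → p * Nat.card F ^ (2 * r) ≤ k →
          (Nat.card {I : B × Word (5 * M ^ 2) m B → F // (∃ l j z, P.Ends I l j z ∧ j ≤ 2 ^ b) ∧
            ∀ l j z, P.Ends I l j z → z = φ (res (fine g) x0 a c0 (tab I)) ∧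
              (Nat.card {x // x ∈ l} : ℝ) ≤ θ} : ℝ) ≤
            (E + C / (1 + q * δ / 4) ^ r) * Nat.card (B × Word (5 * M ^ 2) m B → F)) ∧
        (∀ (Y : Set B), Nat.card F * Nat.card Y ≤ k →
          (Nat.card {I : B × Word (5 * M ^ 2) m B → F // res (fine g) x0 a c0 (tab I) ∈ Y ∧
            (∃ l j z, P.Ends I l j z ∧ j ≤ 2 ^ b) ∧
            ∀ l j z, P.Ends I l j z → (Nat.card {x // x ∈ l} : ℝ) ≤ θ} : ℝ) ≤
            E * Nat.card (B × Word (5 * M ^ 2) m B → F) +
              C * Nat.card {I : B × Word (5 * M ^ 2) m B → F // res (fine g) x0 a c0 (tab I) ∉ Y ∧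
                ∃ l j z, P.Ends I l j z})) ∧
      (∃ (Q Γ : Type) (_ : Finite Q) (_ : Finite Γ) (P : PProg (B × Word (5 * M ^ 2) m B) F B Q Γ),
        Nat.card Q ≤ N ^ 3 ∧ Nat.card Γ ≤ N ∧
        ∀ I, P.Outputs I (res (fine g) x0 a c0 (tab I)) ∧ (Nat.card {x // P.Asks I x} : ℝ) ≤ N / √k) :=
  final F δ hδ

end Pool.Agent.Results.MP_4e849b_lc.NondeterministicBits
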