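import Pool.Agent.Helper74.NE.Defs
import Pool.Agent.Helper74.NW.Basic

/-!
# Nondeterministic programs which query single symbols: definitions

`F` is a finite field (the alphabet; `ZMod 2` for bits), `B` a finite vector space over `F`. A word has `D m` entries in
`B`. The block of the cell `b` consists of one symbol in `F` for every word `l`; its word is the sum of the words `l`,
multiplied by their symbols. The input is `I : B × Word D m B → F`.
-/

namespace Pool.Agent.Helper99.NQ

open Finset Pool.Agent.Helper19.NF Pool.Agent.Helper74.NW
open Pool.Agent.Helper74.NE (fine fine_apply)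

/-- Words. -/
abbrev Word (D m : ℕ) (B : Type) := Fin D × Fin m → B

section defs

variable {n D m d S : ℕ} {F B Z : Type} [Field F] [AddCommGroup B] [Module F B] [Fintype B]

/-- The word of a block. -/
noncomputable def word (y : Word D m B → F) : Word D m B := open Classical in ∑ l, y l • l

/-- The table of the words of all blocks. -/
noncomputable def tab (I : B × Word D m B → F) (b : B) : Word D m B := word fun l => I (b, l)

open Classical in
/-- The symbols which are not queried in the list `c`. -/
noncomputable def free (c : List (B × Word D m B)) : Finset (B × Word D m B) := univ.filter (fun z => z ∉ c)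

open Classical in
/-- The number of symbols of the block `b` in `V`. -/
noncomputable def gap (V : Finset (B × Word D m B)) (b : B) : ℕ := (univ.filter (fun l : Word D m B => (b, l) ∈ V)).card

variable [NeZero m]

open Classical in
/-- The nodes of row `i` all of whose letters give blocks with less than `h` symbols in `V`. -/
noncomputable def full (g : Fin D → Equiv.Perm (Fin n)) (x0 : Fin n × Fin m → B) (h i : ℕ)
    (I : B × Word D m B → F) (V : Finset (B × Word D m B)) : Finset (Fin n) :=
  univ.filter (fun u => ∀ t, gap V (val (fine g) x0 (tab I) i (u, t)) < h)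

open Classical in
/-- The nodes `u` of row `i + 1` such that for all `s` all the letters of the node `g s u` of row `i` give blocks with
less than `h` symbols in `V`. -/
noncomputable def comp (g : Fin D → Equiv.Perm (Fin n)) (x0 : Fin n × Fin m → B) (h i : ℕ)
    (I : B × Word D m B → F) (V : Finset (B × Word D m B)) : Finset (Fin n) :=
  univ.filter (fun u => ∀ s t, gap V (val (fine g) x0 (tab I) i (g s u, t)) < h)

/-- EVERY computation from `s` to `t` makes all nodes of row `i` full, with at most `a` exceptions, and queries at most
`T` different symbols. -/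
def Force (P : NProg (B × Word D m B) F Z S) (g : Fin D → Equiv.Perm (Fin n)) (x0 : Fin n × Fin m → B) (h T a i : ℕ)
    (s t : Fin S) (I : B × Word D m B → F) : Prop :=
  ∀ c, P.Run I s c t → n ≤ (full g x0 h i I (free c)).card + a ∧
    Fintype.card (B × Word D m B) ≤ (free c).card + T

/-- The position (node, letter) in row `i` of the hole of the node `u` of row `i + 1`. -/
def pos (g : Fin D → Equiv.Perm (Fin n)) (h1 : Fin n → Fin D × Fin m) (u : Fin n) : Fin n × Fin m :=
  (g (h1 u).1 u, (h1 u).2)

/-- The bad inputs of the type `(i, s, p, t, J, h1, h2)`. -/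
structure InE (P : NProg (B × Word D m B) F Z S) (g : Fin D → Equiv.Perm (Fin n)) (x0 : Fin n × Fin m → B)
    (h T a i : ℕ) (s p t : Fin S) (J : Finset (Fin n)) (h1 h2 : Fin n → Fin D × Fin m)
    (I : B × Word D m B → F) : Prop where
  cf : CF (fine g) x0 i (tab I)
  force : Force P g x0 h T a (i + 1) s t I
  win1 : ∃ c, P.Run I s c p ∧ ∀ u ∈ J, h ≤ gap (free c) (val (fine g) x0 (tab I) i (pos g h1 u))
  win2 : ∃ c, P.Run I p c t ∧ ∀ u ∈ J, h ≤ gap (free c) (val (fine g) x0 (tab I) i (pos g h2 u))

/-! ## One orbit: changes of the blocks of row `i` -/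

/-- The changes of the blocks of the letters of row `i`. -/
abbrev Ch (n D m : ℕ) (F B : Type) := Fin n × Fin m → Word D m B → F

/-- The change of the letter `v` of row `i + 1`. -/
noncomputable def lam (g : Fin D → Equiv.Perm (Fin n)) (x : Ch n D m F B) (v : Fin n × Fin m) : B :=
  ∑ c, word (x (fine g c v)) c

open Classical in
/-- The change of the symbols number `b u j` of the holes of the nodes `u` by `e u j`. -/
noncomputable def flip (g : Fin D → Equiv.Perm (Fin n)) (h1 : Fin n → Fin D × Fin m)
    (b : Fin n → Fin d → Word D m B) : (Fin n → Fin d → F) →+ Ch n D m F B where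
  toFun e := fun p l => ∑ u, ∑ j, if pos g h1 u = p ∧ b u j = l then e u j else 0
  map_zero' := by
    funext p l
    simp
  map_add' e e' := by
    funext p l
    simp only [Pi.add_apply, ← Finset.sum_add_distrib]
    refine Finset.sum_congr rfl fun u _ => Finset.sum_congr rfl fun j _ => ?_
    split_ifs <;> simp

open Classical in
/-- The symbols number `l` of the block of the letter `p` which are in `V`. -/
noncomputable def left (cell : Fin n × Fin m → B) (V : Finset (B × Word D m B)) (p : Fin n × Fin m) :
    Finset (Word D m B) :=
  univ.filter (fun l => (cell p, l) ∈ V)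

open Classical in
/-- The pasting property. -/
def Closed (g : Fin D → Equiv.Perm (Fin n)) (cell t0 : Fin n × Fin m → B) (h T a : ℕ) (E : Finset (Ch n D m F B))
    (V1 V2 : Ch n D m F B → Finset (B × Word D m B)) : Prop :=
  ∀ x ∈ E, ∀ x1 ∈ E, ∀ x2 ∈ E, (∀ p l, x1 p l ≠ x p l → l ∈ left cell (V1 x1) p) →
    (∀ p l, x2 p l ≠ x p l → l ∈ left cell (V2 x2) p) →
    Fintype.card (B × Word D m B) ≤ (V1 x1 ∩ V2 x2).card + T ∧
    n ≤ (univ.filter (fun u => ∀ t, gap (V1 x1 ∩ V2 x2) (t0 (u, t) + lam g x (u, t)) < h)).card + a

end defs

/-! ## Incoming changes (helper60's form) -/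

section inK

variable {n d : ℕ} {F W X : Type} [AddCommGroup F] [AddCommGroup X]

open Classical in
/-- The nodes with a change. -/
noncomputable def supp (e : Fin n → Fin d → F) : Finset (Fin n) := univ.filter (fun u => e u ≠ 0)

/-- All the symbols `b u j` with `u ∈ K` are unread. -/
def Unread (U : X → Fin n → Finset W) (x : X) (K : Finset (Fin n)) (b : Fin n → Fin d → W) : Prop :=
  ∀ u ∈ K, ∀ j, b u j ∈ U x u

open Classical in
/-- The number of changes with support `K` which come from an element of `E` and are not seen there. -/
noncomputable def inK [Fintype F] [Fintype W] (D : (Fin n → Fin d → W) → ((Fin n → Fin d → F) →+ X)) (U : X → Fin n → Finset W)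
    (E : Finset X) (K : Finset (Fin n)) (x : X) : ℕ :=
  (univ.filter (fun z : (Fin n → Fin d → W) × (Fin n → Fin d → F) =>
    supp z.2 = K ∧ x - D z.1 z.2 ∈ E ∧ Unread U (x - D z.1 z.2) K z.1)).card

end inK

/-- The bound for one type: `q` symbols, `r` the least part of a block left in a hole, `η` from the hitting lemma. -/
noncomputable def err (n m d a κ j : ℕ) (q r η : ℝ) : ℝ :=
  2 ^ (5 * n + 1) * (q / r) ^ (2 * d * n) / η ^ (m * a) + 8 * 2 ^ n * q ^ (d * κ) / (q * r) ^ (d * j) +
    8 * 4 ^ n * q ^ (2 * d * a) / (q * r) ^ (d * κ)

end Pool.Agent.Helper99.NQ
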