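import Pool.Agent.Helper99.NQ.Head

/-!
# The final form
-/

set_option autoImplicit false

namespace Pool.Agent.Helper99.NQ

open Finset Pool.Agent.Helper19.NF
open Pool.Agent.Helper74.NW hiding fine fine_apply full hole chg InX
open Pool.Agent.Helper74.NE (fine fine_apply)

theorem final (F : Type) [Field F] [Fintype F] (δ : ℝ) (hδ : 0 < δ) :
    ∃ (C M m : ℕ) (_ : NeZero m), 1 < M ∧ ∀ a : ℕ, 1 ≤ a →
      ∃ g : Fin (5 * M ^ 2) → Equiv.Perm (Fin (M ^ 2 * a)),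
      ∀ (B : Type) [AddCommGroup B] [Module F B] [Fintype B] (x0 : Fin (M ^ 2 * a) × Fin m → B),
      Function.Injective x0 → ∀ (k N : ℕ) (q E θ : ℝ) (c0 : Fin (5 * M ^ 2) × Fin m),
      k = Nat.card B → C * a ^ 4 ≤ k → N = Nat.card (B × Word (5 * M ^ 2) m B) → q = Nat.card F →
      E = C * a ^ 4 / k + 1 / 2 ^ a → θ = (1 - 1 / q - δ) * N →
      N = k ^ (5 * M ^ 2 * m + 1) ∧
      (∀ (S : ℕ) (Z : Type) (P : NProg (B × Word (5 * M ^ 2) m B) F Z S), S ≤ 2 ^ a →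
        (∀ Acc : Z → B → Prop, (∀ z, ∃ y, ¬ Acc z y) →
          (∀ I l z, P.Ends I l z → Acc z (res (fine g) x0 a c0 (tab I))) →
          (Nat.card {I : B × Word (5 * M ^ 2) m B → F // (∃ l z, P.Ends I l z) ∧
            ∀ l z, P.Ends I l z → (Nat.card {x // x ∈ l} : ℝ) ≤ θ} : ℝ) ≤
            E * Nat.card (B × Word (5 * M ^ 2) m B → F)) ∧
        (∀ (φ : B → Z) (p r : ℕ), (∀ z, Nat.card {x // φ x = z} ≤ p) → p * Nat.card F ^ (2 * r) ≤ k →
          (Nat.card {I : B × Word (5 * M ^ 2) m B → F // (∃ l z, P.Ends I l z) ∧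
            ∀ l z, P.Ends I l z → z = φ (res (fine g) x0 a c0 (tab I)) ∧ (Nat.card {x // x ∈ l} : ℝ) ≤ θ} : ℝ) ≤
            (E + C / (1 + q * δ / 4) ^ r) * Nat.card (B × Word (5 * M ^ 2) m B → F)) ∧
        (∀ (Y : Set B), Nat.card F * Nat.card Y ≤ k →
          (Nat.card {I : B × Word (5 * M ^ 2) m B → F // res (fine g) x0 a c0 (tab I) ∈ Y ∧
            (∃ l z, P.Ends I l z) ∧ ∀ l z, P.Ends I l z → (Nat.card {x // x ∈ l} : ℝ) ≤ θ} : ℝ) ≤
            E * Nat.card (B × Word (5 * M ^ 2) m B → F) +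
              C * Nat.card {I : B × Word (5 * M ^ 2) m B → F // res (fine g) x0 a c0 (tab I) ∉ Y ∧
                ∃ l z, P.Ends I l z})) ∧
      (∀ (b : ℕ) (Z Q Γ : Type) (_ : Finite Q) (P : NPProg (B × Word (5 * M ^ 2) m B) F Z Q Γ),
        (2 * Nat.card Q ^ 2 + 2) ^ (b + 2) ≤ 2 ^ a →
        (∀ Acc : Z → B → Prop, (∀ z, ∃ y, ¬ Acc z y) →
          (∀ I l j z, P.Ends I l j z → Acc z (res (fine g) x0 a c0 (tab I))) →
          (Nat.card {I : B × Word (5 * M ^ 2) m B → F // (∃ l j z, P.Ends I l j z ∧ j ≤ 2 ^ b) ∧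
            ∀ l j z, P.Ends I l j z → (Nat.card {x // x ∈ l} : ℝ) ≤ θ} : ℝ) ≤
            E * Nat.card (B × Word (5 * M ^ 2) m B → F)) ∧
        (∀ (φ : B → Z) (p r : ℕ), (∀ z, Nat.card {x // φ x = z} ≤ p) → p * Nat.card F ^ (2 * r) ≤ k →
          (Nat.card {I : B × Word (5 * M ^ 2) m B → F // (∃ l j z, P.Ends I l j z ∧ j ≤ 2 ^ b) ∧
            ∀ l j z, P.Ends I l j z → z = φ (res (fine g) x0 a c0 (tab I)) ∧
              (Nat.card {x // x ∈ l} : ℝ) ≤ θ} : ℝ) ≤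
            (E + C / (1 + q * δ / 4) ^ r) * Nat.card (B × Word (5 * M ^ 2) m B → F)) ∧
        (∀ (Y : Set B), Nat.card F * Nat.card Y ≤ k →
          (Nat.card {I : B × Word (5 * M ^ 2) m B → F // res (fine g) x0 a c0 (tab I) ∈ Y ∧
            (∃ l j z, P.Ends I l j z ∧ j ≤ 2 ^ b) ∧
            ∀ l j z, P.Ends I l j z → (Nat.card {x // x ∈ l} : ℝ) ≤ θ} : ℝ) ≤
            E * Nat.card (B × Word (5 * M ^ 2) m B → F) +
              C * Nat.card {I : B × Word (5 * M ^ 2) m B → F // res (fine g) x0 a c0 (tab I) ∉ Y ∧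
                ∃ l j z, P.Ends I l j z})) ∧
      (∃ (Q Γ : Type) (_ : Finite Q) (_ : Finite Γ) (P : PProg (B × Word (5 * M ^ 2) m B) F B Q Γ),
        Nat.card Q ≤ N ^ 3 ∧ Nat.card Γ ≤ N ∧
        ∀ I, P.Outputs I (res (fine g) x0 a c0 (tab I)) ∧ (Nat.card {x // P.Asks I x} : ℝ) ≤ N / √k) := by
  classical
  obtain ⟨C, M, m, hm, hM, hC, hall⟩ := head_aux F δ hδ
  refine ⟨C, M, m, hm, by omega, fun a ha => ?_⟩
  obtain ⟨g, hB⟩ := hall a ha
  refine ⟨g, fun B _ _ _ x0 hx0 k N q E θ c0 hk hkC hN hq hE hθ => ?_⟩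
  have hm0 : 0 < m := NeZero.pos m
  have hk' : k = Fintype.card B := by rw [hk, Nat.card_eq_fintype_card]
  have hN' : N = Fintype.card (B × Word (5 * M ^ 2) m B) := by rw [hN, Nat.card_eq_fintype_card]
  have hF' : Nat.card F = Fintype.card F := Nat.card_eq_fintype_card
  have ha4 : 1 ≤ a ^ 4 := Nat.one_le_pow _ _ ha
  have hCk : C ≤ k := (Nat.le_mul_of_pos_right _ (by omega)).trans hkC
  have hk0 : 0 < k := by omega
  have hk0' : (0 : ℝ) < k := by exact_mod_cast hk0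
  have hM1 : 4 ≤ M ^ 2 := by nlinarith
  have haM : 2 * a ≤ M ^ 2 * a := Nat.mul_le_mul_right a (by omega)
  have hcN : N = k ^ (5 * M ^ 2 * m + 1) := by
    rw [hN', Fintype.card_prod, Fintype.card_fun, Fintype.card_prod, Fintype.card_fin, Fintype.card_fin, ← hk']
    exact (pow_succ' _ _).symm
  have hE0 : 0 ≤ E := by rw [hE]; positivity
  have hq0 : 0 ≤ q := by rw [hq]; positivity
  have hbase := fun (S : ℕ) (Z : Type) (P : NProg (B × Word (5 * M ^ 2) m B) F Z S) =>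
    hB B x0 hx0 c0 (by rw [← hk']; exact hkC) S Z P
  simp only [← hk', ← hN', ← hF', ← hq] at hbase
  have hbase2 := fun (S : ℕ) (Z : Type) (P : NProg (B × Word (5 * M ^ 2) m B) F Z S) (hS : S ≤ 2 ^ a) (hθ0 : 0 ≤ θ) =>
    hbase S Z P hS ⌊θ⌋₊ (by rw [← hθ]; exact Nat.floor_le hθ0)
  have hEE : ∀ x : ℝ, (C : ℝ) * a ^ 4 / k + x + 1 / 2 ^ a = E + x := by intro x; rw [hE]; ring
  simp only [hEE, ← hE] at hbase2
  have hfl : 0 ≤ θ → ∀ y : ℕ, (y : ℝ) ≤ θ ↔ y ≤ ⌊θ⌋₊ := fun h0 y => (Nat.le_floor_iff h0).symm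
  have hng : ¬ 0 ≤ θ → ∀ y : ℕ, ¬ (y : ℝ) ≤ θ := fun h0 y hy => h0 ((Nat.cast_nonneg y).trans hy)
  refine ⟨hcN, fun S Z P hS => ⟨fun Acc hAcc hP => ?_, fun φ p r hφ hpr => ?_, fun Y hY => ?_⟩,
    fun b Z Q Γ hQ P hS => ?_, ?_⟩
  · by_cases h0 : 0 ≤ θ
    · refine le_trans ?_ ((hbase2 S Z P hS h0).1 Acc hAcc hP)
      exact card_mono fun I hI => ⟨hI.1, fun l z hl => ((hfl h0 _).1 (hI.2 l z hl)).trans (Nat.le_succ _)⟩
    · rw [card_none]
      · positivity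
      · rintro I ⟨⟨l, z, hl⟩, h2⟩
        exact hng h0 _ (h2 l z hl)
  · by_cases h0 : 0 ≤ θ
    · refine le_trans ?_ ((hbase2 S Z P hS h0).2.1 φ p r hφ hpr)
      exact card_mono fun I hI => ⟨hI.1, fun l z hl => ⟨(hI.2 l z hl).1,
        ((hfl h0 _).1 (hI.2 l z hl).2).trans (Nat.le_succ _)⟩⟩
    · rw [card_none]
      · positivity
      · rintro I ⟨⟨l, z, hl⟩, h2⟩
        exact hng h0 _ (h2 l z hl).2
  · by_cases h0 : 0 ≤ θ
    · refine le_trans ?_ ((hbase2 S Z P hS h0).2.2 Y hY)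
      exact card_mono fun I hI => ⟨hI.1, hI.2.1,
        fun l z hl => ((hfl h0 _).1 (hI.2.2 l z hl)).trans (Nat.le_succ _)⟩
    · rw [card_none]
      · positivity
      · rintro I ⟨-, ⟨l, z, hl⟩, h2⟩
        exact hng h0 _ (h2 l z hl)
  · have := Fintype.ofFinite Q
    rw [Nat.card_eq_fintype_card (α := Q)] at hS
    let s0 : B × Word (5 * M ^ 2) m B := (0, 0)
    refine ⟨fun Acc hAcc hP => ?_, fun φ p r hφ hpr => ?_, fun Y hY => ?_⟩
    · by_cases h0 : 0 ≤ θ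
      · refine le_trans (card_mono ?_) (Pool.Agent.Helper58.NQ.push_sound P s0 (T := ⌊θ⌋₊) hS
          (fun I z => Acc z (res (fine g) x0 a c0 (tab I))) (E * Nat.card (B × Word (5 * M ^ 2) m B → F)) hP
          (fun S hS' P' hP' => (hbase2 S Z P' hS' h0).1 Acc hAcc hP'))
        exact fun I hI => ⟨hI.1, fun l j z hl => (hfl h0 _).1 (hI.2 l j z hl)⟩
      · rw [card_none]
        · positivity
        · rintro I ⟨⟨l, j, z, hl, -⟩, h2⟩
          exact hng h0 _ (h2 l j z hl)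
    · by_cases h0 : 0 ≤ θ
      · refine le_trans (card_mono ?_) (Pool.Agent.Helper58.NQ.push_err P s0 (T := ⌊θ⌋₊) hS
          (fun I z => z = φ (res (fine g) x0 a c0 (tab I)))
          ((E + C / (1 + q * δ / 4) ^ r) * Nat.card (B × Word (5 * M ^ 2) m B → F))
          (fun S hS' P' => (hbase2 S Z P' hS' h0).2.1 φ p r hφ hpr))
        exact fun I hI => ⟨hI.1, fun l j z hl => ⟨(hI.2 l j z hl).1, (hfl h0 _).1 (hI.2 l j z hl).2⟩⟩
      · rw [card_none]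
        · positivity
        · rintro I ⟨⟨l, j, z, hl, -⟩, h2⟩
          exact hng h0 _ (h2 l j z hl).2
    · by_cases h0 : 0 ≤ θ
      · refine le_trans (card_mono ?_) (Pool.Agent.Helper58.NQ.push_gen P s0 hS
          (fun I _ => ∃ l j z, P.Ends I l j z)
          (fun I l _ => res (fine g) x0 a c0 (tab I) ∈ Y ∧ Nat.card {x // x ∈ l} ≤ ⌊θ⌋₊)
          (fun I l _ => res (fine g) x0 a c0 (tab I) ∈ Y ∧ Nat.card {x // x ∈ l} ≤ ⌊θ⌋₊ + 1)
          (fun I l l' z h1 h2 => ⟨h1.1, Pool.Agent.Helper78.NW.card_perm_cons h2 h1.2⟩)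
          (E * Nat.card (B × Word (5 * M ^ 2) m B → F) +
              C * Nat.card {I : B × Word (5 * M ^ 2) m B → F // res (fine g) x0 a c0 (tab I) ∉ Y ∧
                ∃ l j z, P.Ends I l j z})
          (fun I l j z hl => ⟨l, j, z, hl⟩) (fun S hS' P' hP' => ?_))
        · rintro I ⟨h1, ⟨l, j, z, hl, hj⟩, h2⟩
          exact ⟨⟨l, j, z, hl, hj⟩, fun l' j' z' hl' => ⟨h1, (hfl h0 _).1 (h2 l' j' z' hl')⟩⟩
        · refine le_trans (card_mono ?_) (((hbase2 S Z P' hS' h0).2.2 Y hY).trans ?_)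
          · rintro I ⟨⟨l, z, hl⟩, h2⟩
            exact ⟨(h2 l z hl).1, ⟨l, z, hl⟩, fun l' z' hl' => (h2 l' z' hl').2⟩
          · refine add_le_add le_rfl (mul_le_mul_of_nonneg_left (card_mono ?_) (Nat.cast_nonneg C))
            rintro I ⟨h1, l, z, hl⟩
            exact ⟨h1, hP' I l z hl⟩
      · rw [card_none]
        · positivity
        · rintro I ⟨-, ⟨l, j, z, hl, -⟩, h2⟩
          exact hng h0 _ (h2 l j z hl)
  · -- the pushdown program
    have h44 : 4 * M ^ 4 * m ^ 2 * a ^ 4 ≤ k := le_trans (Nat.mul_le_mul_right _ (by omega)) hkC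
    have hV2 : ((a + 1) * (M ^ 2 * a * m)) ^ 2 ≤ k := by
      refine le_trans ?_ h44
      calc ((a + 1) * (M ^ 2 * a * m)) ^ 2 ≤ (2 * a * (M ^ 2 * a * m)) ^ 2 :=
            Nat.pow_le_pow_left (Nat.mul_le_mul_right _ (by omega)) 2
        _ = 4 * M ^ 4 * m ^ 2 * a ^ 4 := by ring
    have hDm : 5 * M ^ 2 * m ≤ k := by
      refine le_trans ?_ h44
      calc 5 * M ^ 2 * m ≤ 16 * M ^ 2 * m := by gcongr; norm_num
        _ ≤ 4 * M ^ 4 * m ^ 2 * 1 := by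
            have e1 : 4 * M ^ 2 ≤ M ^ 4 := by
              calc 4 * M ^ 2 ≤ M ^ 2 * M ^ 2 := Nat.mul_le_mul_right _ hM1
                _ = M ^ 4 := by ring
            have e2 : m ≤ m ^ 2 := Nat.le_self_pow (by norm_num) m
            calc 16 * M ^ 2 * m = 4 * (4 * M ^ 2) * m := by ring
              _ ≤ 4 * M ^ 4 * m ^ 2 := Nat.mul_le_mul (Nat.mul_le_mul_left 4 e1) e2
              _ = 4 * M ^ 4 * m ^ 2 * 1 := by ring
        _ ≤ 4 * M ^ 4 * m ^ 2 * a ^ 4 := Nat.mul_le_mul_left _ ha4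
    obtain ⟨Q, Γ, hQ, hΓ, P, h1, h2, h3⟩ := upper (F := F) g x0 a c0 (by omega)
      (by
        rw [← hk']
        refine le_trans ?_ hV2
        exact Nat.le_self_pow (by norm_num) _)
      (by rw [← hk']; omega) (by rw [← hk']; exact hDm) (by nlinarith)
    refine ⟨Q, Γ, hQ, hΓ, P, by rw [hN]; exact h1, by rw [hN]; exact h2, fun I => ⟨(h3 I).1, ?_⟩⟩
    have h5 : ((Nat.card {x // P.Asks I x} : ℕ) : ℝ) ≤
        (((a + 1) * (M ^ 2 * a * m) * Nat.card (Word (5 * M ^ 2) m B) : ℕ) : ℝ) := by exact_mod_cast (h3 I).2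
    refine h5.trans ?_
    have h6 : (N : ℝ) = k * Nat.card (Word (5 * M ^ 2) m B) := by
      rw [hN, Nat.card_prod, hk]
      push_cast
      rfl
    have h7 : (((a + 1) * (M ^ 2 * a * m) : ℕ) : ℝ) ≤ √k := by
      refine Real.le_sqrt_of_sq_le ?_
      exact_mod_cast hV2
    rw [h6]
    have h8 : (k : ℝ) * Nat.card (Word (5 * M ^ 2) m B) / √k = √k * Nat.card (Word (5 * M ^ 2) m B) := by
      have h9 : (k : ℝ) = √k * √k := (Real.mul_self_sqrt hk0'.le).symm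
      have h10 : √(k : ℝ) ≠ 0 := (Real.sqrt_pos.mpr hk0').ne'
      rw [div_eq_iff h10]
      nth_rewrite 1 [h9]
      ring
    rw [h8, Nat.cast_mul]
    exact mul_le_mul_of_nonneg_right h7 (Nat.cast_nonneg _)

end Pool.Agent.Helper99.NQ
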