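import Pool.Agent.Helper99.NQ.Defs

/-!
# Frame of NQ: the statements of the pieces (this file contains `sorry` and is not imported by anything)
-/

namespace Pool.Agent.Helper99.NQ.Frame

open Finset Pool.Agent.Helper19.NF Pool.Agent.Helper74.NW Pool.Agent.Helper99.NQ
open Pool.Agent.Helper74.NE (fine fine_apply)

/-! ## Q1 hitting lemma, fractional form (helper99): DONE, Pool.Agent.Helper99.NQ.hitting in NQ/Hit.lean -/

open Classical in
theorem hitting {A ι Λ : Type} [AddCommGroup A] [Fintype A] [Fintype ι] [Fintype Λ] [Nonempty Λ]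
    (V1 V2 : (ι → A) → Finset (A × Λ)) (w₀ : ι → A) (μ ν : ℝ) (hμ : ν ≤ μ) :
    (Nat.card {y : (ι → A) × (ι → A) // μ * Fintype.card (A × Λ) ≤ (V1 y.2 ∩ V2 y.1).card ∧
        ∀ c, ((univ.filter (fun l : Λ => (w₀ c + y.1 c + y.2 c, l) ∈ V1 y.2 ∩ V2 y.1)).card : ℝ) ≤
          ν * Fintype.card Λ} : ℝ) * (1 + (μ - ν) / 2) ^ Fintype.card ι ≤
      2 * ((Fintype.card A : ℝ) ^ Fintype.card ι) ^ 2 := by
  sorry

/-! ## Q2 Lemma D (helper60) -/

open Classical in
theorem lemmaD {n d : ℕ} {F W X : Type} [AddCommGroup F] [Fintype F] [Fintype W] [AddCommGroup X] [Fintype X]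
    (D : (Fin n → Fin d → W) → ((Fin n → Fin d → F) →+ X)) (U : X → Fin n → Finset W) (E G : Finset X)
    (hG : G ⊆ E) (J : Finset (Fin n)) (h κ : ℕ) (ρ : ℝ) (hh : 0 < h) (hU : ∀ x ∈ G, ∀ u ∈ J, h ≤ (U x u).card)
    (hρ : 2 ^ n * ρ ≤ ((h : ℝ) / Fintype.card W) ^ (d * J.card))
    (hin : ∀ x ∈ G, ∀ K ⊆ J, κ ≤ K.card → (inK D U E K x : ℝ) ≤ ρ * Fintype.card (Fin n → Fin d → W)) :
    (G.card : ℝ) ≤ 8 * 2 ^ n * (Fintype.card F : ℝ) ^ (d * κ) *
      ((Fintype.card W : ℝ) / (h * Fintype.card F)) ^ (d * J.card) * Fintype.card X := by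
  sorry

section net

variable {n D m d S : ℕ} [NeZero m] {F B Z : Type} [Field F] [Fintype F] [AddCommGroup B] [Module F B] [Fintype B]

/-! ## Q3a: two directions -/

/-- One changed symbol makes the word uniform, so for fixed `e`, `e'` the letters of the nodes in `supp e ∩ supp e'`
move by `y + z` where `y` is a part of `b` and `z` a part of `b'`; `x0 = x - flip b e - flip b' e'` is fixed,
`V1 x1` depends on `x0` and `b'` only, `V2 x2` on `x0` and `b` only: use `hitting`. -/
theorem pairs_bound (g : Fin D → Equiv.Perm (Fin n)) (h1 h2 : Fin n → Fin D × Fin m) (cell t0 : Fin n × Fin m → B)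
    (h T a : ℕ) (E : Finset (Ch n D m F B)) (V1 V2 : Ch n D m F B → Finset (B × Word D m B))
    (hE : Closed g cell t0 h T a E V1 V2) (hh : h ≤ Fintype.card (Word D m B))
    (hT : T ≤ Fintype.card (B × Word D m B)) (η : ℝ)
    (hη : η = 1 + (1 - (T : ℝ) / Fintype.card (B × Word D m B) - (h : ℝ) / Fintype.card (Word D m B)) / 2)
    (hη1 : 1 ≤ η) (K K' : Finset (Fin n)) (hK : 2 * a ≤ (K ∩ K').card) :
    ∑ x ∈ E, (inK (flip (F := F) (d := d) g h1) (fun x u => left cell (V1 x) (pos g h1 u)) E K x : ℝ) *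
        inK (flip (F := F) (d := d) g h2) (fun x u => left cell (V2 x) (pos g h2 u)) E K' x ≤
      (Fintype.card F : ℝ) ^ (2 * d * n) * 2 ^ (n + 1) / η ^ (m * a) * Nat.card (Ch n D m F B) *
        (Nat.card (Fin n → Fin d → Word D m B) : ℝ) ^ 2 := by
  sorry

/-! ## Q3b: the bound in one orbit, from Q2 and Q3a -/

theorem orbit_bound (g : Fin D → Equiv.Perm (Fin n)) (h1 h2 : Fin n → Fin D × Fin m) (cell t0 : Fin n × Fin m → B)
    (h T a : ℕ) (E : Finset (Ch n D m F B)) (V1 V2 : Ch n D m F B → Finset (B × Word D m B))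
    (hE : Closed g cell t0 h T a E V1 V2) (J : Finset (Fin n)) (κ j : ℕ) (hj : j ≤ J.card)
    (hJ1 : ∀ x ∈ E, ∀ u ∈ J, h ≤ (left cell (V1 x) (pos g h1 u)).card)
    (hJ2 : ∀ x ∈ E, ∀ u ∈ J, h ≤ (left cell (V2 x) (pos g h2 u)).card)
    (hh : h ≤ Fintype.card (Word D m B)) (hq : Fintype.card (Word D m B) ≤ h * Fintype.card F)
    (hT : T ≤ Fintype.card (B × Word D m B)) (η : ℝ)
    (hη : η = 1 + (1 - (T : ℝ) / Fintype.card (B × Word D m B) - (h : ℝ) / Fintype.card (Word D m B)) / 2)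
    (hη1 : 1 ≤ η) (hκ : 2 * a ≤ κ) :
    (E.card : ℝ) ≤ err n m d a κ j (Fintype.card F) ((h : ℝ) / Fintype.card (Word D m B)) η *
      Nat.card (Ch n D m F B) := by
  sorry

/-! ## Q4: the recursion -/

theorem exists_inE (P : NProg (B × Word D m B) F Z S) (g : Fin D → Equiv.Perm (Fin n)) (x0 : Fin n × Fin m → B)
    (h T a R : ℕ)
    (hX : ∀ X : Finset (Fin n), n ≤ 4 * X.card → n ≤ (X.biUnion (fun u => univ.image (fun s => g s u))).card + a)
    (ha : a < n) (hL : h + 1 ≤ Fintype.card (Word D m B)) {I : B × Word D m B → F}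
    (hcf : CF (fine g) x0 R (tab I)) {s t : Fin S} (hF : Force P g x0 h T a R s t I)
    {c : List (B × Word D m B)} (hc : P.Run I s c t) (hlen : c.length ≤ 2 ^ R) :
    ∃ i < R, ∃ s' p t' J h1 h2, n ≤ 2 * J.card ∧ InE P g x0 h T a i s' p t' J h1 h2 I := by
  sorry

/-! ## Q5: the root, for sound programs. `Acc z y`: the result `z` is allowed if the value of the network is `y`. -/

theorem root_full (P : NProg (B × Word D m B) F Z S) (g : Fin D → Equiv.Perm (Fin n)) (x0 : Fin n × Fin m → B)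
    (h R : ℕ) (c0 : Fin D × Fin m) (Acc : Z → B → Prop) (hAcc : ∀ z, ∃ y, ¬ Acc z y)
    (hP : ∀ I l z, P.Ends I l z → Acc z (res (fine g) x0 R c0 (tab I)))
    (hq : Fintype.card (Word D m B) < h * Fintype.card F) {I : B × Word D m B → F}
    (hcf : CF (fine g) x0 R (tab I)) {l : List (B × Word D m B)} {z : Z} (hl : P.Ends I l z) :
    full g x0 h R I (free l) = univ := by
  sorry

/-- The map from inputs to tables of words has fibres of equal size. -/
theorem card_tab (p : (B → Word D m B) → Prop) :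
    Nat.card {I : B × Word D m B → F // p (tab I)} * Nat.card (B → Word D m B) =
      Nat.card {J : B → Word D m B // p J} * Nat.card (B × Word D m B → F) := by
  sorry

/-! ## Q6: from orbits to inputs. The orbit of an input `I` with `CF` up to row `i`: change the block of the cell
`val i v` by `x v`. For each `x` this is a bijection of the inputs with `CF` up to row `i`; rows `≤ i` do not change,
row `i + 1` changes by `lam g x`. `V1 x` = free symbols of a run given by `win1` at the changed input, `V2` likewise. -/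

theorem card_inE (P : NProg (B × Word D m B) F Z S) (g : Fin D → Equiv.Perm (Fin n)) (x0 : Fin n × Fin m → B)
    (h T a i κ j : ℕ) (s p t : Fin S) (J : Finset (Fin n)) (h1 h2 : Fin n → Fin D × Fin m) (hj : j ≤ J.card)
    (hh : h ≤ Fintype.card (Word D m B)) (hq : Fintype.card (Word D m B) ≤ h * Fintype.card F)
    (hT : T ≤ Fintype.card (B × Word D m B)) (η : ℝ)
    (hη : η = 1 + (1 - (T : ℝ) / Fintype.card (B × Word D m B) - (h : ℝ) / Fintype.card (Word D m B)) / 2)
    (hη1 : 1 ≤ η) (hκ : 2 * a ≤ κ) :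
    (Nat.card {I // InE P g x0 h T a i s p t J h1 h2 I} : ℝ) ≤
      err n m d a κ j (Fintype.card F) ((h : ℝ) / Fintype.card (Word D m B)) η *
        Nat.card (B × Word D m B → F) := by
  sorry

end net

/-! ## Q7: permutations -/

theorem exists_perms (M a : ℕ) (hM : 1 ≤ M) (ha : 1 ≤ a) : ∃ g : Fin (5 * M ^ 2) → Equiv.Perm (Fin (M ^ 2 * a)),
    ∀ X : Finset (Fin (M ^ 2 * a)), M ^ 2 * a ≤ 4 * X.card →
      M ^ 2 * a ≤ (X.biUnion (fun u => univ.image (fun s => g s u))).card + a := by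
  sorry

section main

variable {n D m d S : ℕ} [NeZero m] {F B Z : Type} [Field F] [Fintype F] [AddCommGroup B] [Module F B] [Fintype B]

/-! ## Q8a: all types together, for sound programs -/

theorem main_bound (P : NProg (B × Word D m B) F Z S) (g : Fin D → Equiv.Perm (Fin n)) (x0 : Fin n × Fin m → B)
    (hx0 : Function.Injective x0) (h T a R κ j : ℕ) (c0 : Fin D × Fin m)
    (hX : ∀ X : Finset (Fin n), n ≤ 4 * X.card → n ≤ (X.biUnion (fun u => univ.image (fun s => g s u))).card + a)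
    (ha : a < n) (hS : S ≤ 2 ^ R) (Acc : Z → B → Prop) (hAcc : ∀ z, ∃ y, ¬ Acc z y)
    (hP : ∀ I l z, P.Ends I l z → Acc z (res (fine g) x0 R c0 (tab I)))
    (hL : h + 1 ≤ Fintype.card (Word D m B)) (hq : Fintype.card (Word D m B) < h * Fintype.card F)
    (hT : T ≤ Fintype.card (B × Word D m B)) (η : ℝ)
    (hη : η = 1 + (1 - (T : ℝ) / Fintype.card (B × Word D m B) - (h : ℝ) / Fintype.card (Word D m B)) / 2)
    (hη1 : 1 ≤ η) (hκ : 2 * a ≤ κ) (hj : 2 * j ≤ n) :
    (Nat.card {I : B × Word D m B → F // (∃ l z, P.Ends I l z) ∧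
      ∀ l z, P.Ends I l z → Nat.card {x // x ∈ l} ≤ T} : ℝ) ≤
      (((R + 1) * (n * m)) ^ 2 / Fintype.card B +
        R * S ^ 3 * 2 ^ n * (D * m) ^ (2 * n) *
          err n m d a κ j (Fintype.card F) ((h : ℝ) / Fintype.card (Word D m B)) η) *
        Nat.card (B × Word D m B → F) := by
  sorry

end main

/-! ## Q9: a pushdown program over cells becomes one over symbols: it reads the block symbol by symbol -/

theorem symbols_of_cells {D m : ℕ} {F B Z Q Γ : Type} [Field F] [Finite F] [AddCommGroup B] [Module F B] [Fintype B]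
    [Finite Q] (P : PProg B (Word D m B) Z Q Γ) :
    ∃ (Q' : Type) (_ : Finite Q') (P' : PProg (B × Word D m B) F Z Q' Γ),
      Nat.card Q' ≤ Nat.card Q * (Nat.card (Word D m B) + 1) * Nat.card (Word D m B) ∧
      ∀ I : B × Word D m B → F, (∀ z, P.Outputs (tab I) z → P'.Outputs I z) ∧
        ∀ x, P'.Asks I x → P.Asks (tab I) x.1 := by
  sorry

end Pool.Agent.Helper99.NQ.Frame
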