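import Pool.Agent.Helper60.NQ.Sym
import Pool.Agent.Helper96.NW.Push

/-!
# The deterministic pushdown program
-/

set_option autoImplicit false

namespace Pool.Agent.Helper99.NQ

open Finset Pool.Agent.Helper19.NF Pool.Agent.Helper74.NW
open Pool.Agent.Helper74.NE (fine fine_apply)

/-- The deterministic pushdown program which reads single symbols. -/
theorem upper {n D m : ℕ} [NeZero m] {F B : Type} [Field F] [Fintype F] [AddCommGroup B] [Module F B] [Fintype B]
    (g : Fin D → Equiv.Perm (Fin n)) (x0 : Fin n × Fin m → B) (R : ℕ) (c : Fin D × Fin m) (hn : 0 < n)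
    (hB : (R + 1) * (n * m) ≤ Fintype.card B) (hB2 : 2 ≤ Fintype.card B) (hD : D * m ≤ Fintype.card B)
    (h9 : 9 ≤ D * m) :
    ∃ (Q Γ : Type) (_ : Finite Q) (_ : Finite Γ) (P : PProg (B × Word D m B) F B Q Γ),
      Nat.card Q ≤ Nat.card (B × Word D m B) ^ 3 ∧ Nat.card Γ ≤ Nat.card (B × Word D m B) ∧
      ∀ I, P.Outputs I (res (fine g) x0 R c (tab I)) ∧
        Nat.card {x // P.Asks I x} ≤ (R + 1) * (n * m) * Nat.card (Word D m B) := by
  classical
  have : Nonempty (Fin n × Fin m) := ⟨(⟨0, hn⟩, 0)⟩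
  have : Nonempty (Fin D × Fin m) := ⟨c⟩
  have hU : Fintype.card (Fin n × Fin m) = n * m := by rw [Fintype.card_prod, Fintype.card_fin, Fintype.card_fin]
  have hDD : Fintype.card (Fin D × Fin m) = D * m := by rw [Fintype.card_prod, Fintype.card_fin, Fintype.card_fin]
  obtain ⟨Q, Γ, hQ, hΓ, P, h1, h2, h3⟩ := Pool.Agent.Helper96.NW.pushdown_program (fine g) x0 R c
    (by rw [hU]; exact hB) hB2
  obtain ⟨Q', hQ', P', h4, h5⟩ := Pool.Agent.Helper60.NQ.symbols_of_cells (F := F) P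
  rw [hDD] at h1 h2
  set k := Fintype.card B with hk
  have hL : Nat.card (Word D m B) = k ^ (D * m) := by
    rw [Nat.card_eq_fintype_card, Fintype.card_fun, hDD]
  have hN : Nat.card (B × Word D m B) = k * k ^ (D * m) := by
    rw [Nat.card_prod, hL, Nat.card_eq_fintype_card]
  have hk1 : 1 ≤ k := by omega
  have hkL : k ^ 9 ≤ k ^ (D * m) := Nat.pow_le_pow_right hk1 h9
  refine ⟨Q', Γ, hQ', hΓ, P', ?_, ?_, fun I => ⟨(h5 I).1 _ (h3 (tab I)).1, ?_⟩⟩
  · rw [hN]
    rw [hL] at h4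
    refine h4.trans ?_
    have h6 : Nat.card Q ≤ k ^ 8 := by
      refine h1.trans ?_
      calc (D * m * k) ^ 4 ≤ (k * k) ^ 4 := Nat.pow_le_pow_left (Nat.mul_le_mul_right k hD) 4
        _ = k ^ 8 := by ring
    have h7 : k ^ (D * m) + 1 ≤ k * k ^ (D * m) := by
      have h8 : 1 ≤ k ^ (D * m) := Nat.one_le_pow _ _ hk1
      nlinarith
    calc Nat.card Q * (k ^ (D * m) + 1) * k ^ (D * m) ≤ k ^ 8 * (k * k ^ (D * m)) * k ^ (D * m) := by gcongr
      _ = k ^ 9 * (k ^ (D * m) * k ^ (D * m)) := by ring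
      _ ≤ k ^ (D * m) * (k ^ (D * m) * k ^ (D * m)) := Nat.mul_le_mul_right _ hkL
      _ = 1 * (k ^ (D * m)) ^ 3 := by ring
      _ ≤ k ^ 3 * (k ^ (D * m)) ^ 3 := Nat.mul_le_mul_right _ (Nat.one_le_pow _ _ hk1)
      _ = (k * k ^ (D * m)) ^ 3 := by ring
  · rw [hN]
    refine h2.trans ?_
    calc (D * m * k) ^ 2 ≤ (k * k) ^ 2 := Nat.pow_le_pow_left (Nat.mul_le_mul_right k hD) 2
      _ = k ^ 4 := by ring
      _ ≤ k ^ 9 := Nat.pow_le_pow_right hk1 (by norm_num)
      _ ≤ k ^ (D * m) := hkL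
      _ ≤ k * k ^ (D * m) := Nat.le_mul_of_pos_left _ hk1
  · have h6 : Nat.card {x // P'.Asks I x} ≤ Nat.card ({b // P.Asks (tab I) b} × Word D m B) := by
      refine Nat.card_le_card_of_injective
        (fun x => (⟨x.1.1, (h5 I).2 x.1 x.2⟩, x.1.2)) ?_
      intro x y hxy
      rw [Prod.mk.injEq, Subtype.mk.injEq] at hxy
      exact Subtype.ext (Prod.ext hxy.1 hxy.2)
    refine h6.trans ?_
    rw [Nat.card_prod]
    have h7 := (h3 (tab I)).2
    rw [hU] at h7
    exact Nat.mul_le_mul_right _ h7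

end Pool.Agent.Helper99.NQ
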