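import Pool.Agent.Helper99.NQ.Par
import Pool.Agent.Helper99.NQ.Upper
import Pool.Agent.Helper58.NQ.Push
import Pool.Agent.Helper98.NQ.Average
import Pool.Agent.Helper70.NQ.Num

/-!
# The theorem with numbers
-/

set_option autoImplicit false

namespace Pool.Agent.Helper99.NQ

open Finset Pool.Agent.Helper19.NF
open Pool.Agent.Helper74.NW hiding fine fine_apply full hole chg InX
open Pool.Agent.Helper74.NE (fine fine_apply)

/-- More inputs. -/
theorem card_mono {X : Type} [Finite X] {p q : X → Prop} (h : ∀ x, p x → q x) :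
    (Nat.card {x // p x} : ℝ) ≤ Nat.card {x // q x} := by
  have h2 : Nat.card {x // p x} ≤ Nat.card {x // q x} := by
    refine Nat.card_le_card_of_injective (fun x => (⟨x.1, h x.1 x.2⟩ : {x // q x})) ?_
    intro x y hxy
    exact Subtype.ext (by simpa using congrArg Subtype.val hxy)
  exact_mod_cast h2

/-- No input. -/
theorem card_none {X : Type} {p : X → Prop} (h : ∀ x, ¬ p x) : (Nat.card {x // p x} : ℝ) = 0 := by
  have : IsEmpty {x // p x} := ⟨fun x => h x.1 x.2⟩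
  rw [Nat.card_of_isEmpty, Nat.cast_zero]

/-- The bounds for nondeterministic programs, with one more symbol. -/
theorem head_aux (F : Type) [Field F] [Fintype F] (δ : ℝ) (hδ : 0 < δ) :
    ∃ (C M m : ℕ) (_ : NeZero m), 2 ≤ M ∧ 4 * M ^ 4 * m ^ 2 + 6 ≤ C ∧ ∀ a : ℕ, 1 ≤ a →
      ∃ g : Fin (5 * M ^ 2) → Equiv.Perm (Fin (M ^ 2 * a)),
      ∀ (B : Type) [AddCommGroup B] [Module F B] [Fintype B] (x0 : Fin (M ^ 2 * a) × Fin m → B),
      Function.Injective x0 → ∀ (c0 : Fin (5 * M ^ 2) × Fin m), C * a ^ 4 ≤ Fintype.card B →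
      ∀ (S : ℕ) (Z : Type) (P : NProg (B × Word (5 * M ^ 2) m B) F Z S), S ≤ 2 ^ a →
      ∀ T : ℕ, (T : ℝ) ≤ (1 - 1 / Fintype.card F - δ) * Fintype.card (B × Word (5 * M ^ 2) m B) →
      (∀ Acc : Z → B → Prop, (∀ z, ∃ y, ¬ Acc z y) →
        (∀ I l z, P.Ends I l z → Acc z (res (fine g) x0 a c0 (tab I))) →
        (Nat.card {I : B × Word (5 * M ^ 2) m B → F // (∃ l z, P.Ends I l z) ∧
          ∀ l z, P.Ends I l z → Nat.card {x // x ∈ l} ≤ T + 1} : ℝ) ≤
          (C * a ^ 4 / Fintype.card B + 1 / 2 ^ a) * Nat.card (B × Word (5 * M ^ 2) m B → F)) ∧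
      (∀ (φ : B → Z) (p r : ℕ), (∀ z, Nat.card {x // φ x = z} ≤ p) →
        p * Fintype.card F ^ (2 * r) ≤ Fintype.card B →
        (Nat.card {I : B × Word (5 * M ^ 2) m B → F // (∃ l z, P.Ends I l z) ∧
          ∀ l z, P.Ends I l z → z = φ (res (fine g) x0 a c0 (tab I)) ∧ Nat.card {x // x ∈ l} ≤ T + 1} : ℝ) ≤
          (C * a ^ 4 / Fintype.card B + C / (1 + Fintype.card F * δ / 4) ^ r + 1 / 2 ^ a) *
            Nat.card (B × Word (5 * M ^ 2) m B → F)) ∧
      (∀ (Y : Set B), Fintype.card F * Nat.card Y ≤ Fintype.card B →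
        (Nat.card {I : B × Word (5 * M ^ 2) m B → F // res (fine g) x0 a c0 (tab I) ∈ Y ∧
          (∃ l z, P.Ends I l z) ∧ ∀ l z, P.Ends I l z → Nat.card {x // x ∈ l} ≤ T + 1} : ℝ) ≤
          (C * a ^ 4 / Fintype.card B + 1 / 2 ^ a) * Nat.card (B × Word (5 * M ^ 2) m B → F) +
            C * Nat.card {I : B × Word (5 * M ^ 2) m B → F // res (fine g) x0 a c0 (tab I) ∉ Y ∧
              ∃ l z, P.Ends I l z}) := by
  classical
  obtain ⟨C, M, m, d, hm, hM, hC, hC2, hall⟩ :=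
    exists_params (F := F) Pool.Agent.Helper70.NQ.numbers δ hδ
  refine ⟨C, M, m, hm, hM, hC, fun a ha => ?_⟩
  obtain ⟨g, hg, hB⟩ := hall a ha
  refine ⟨g, fun B _ _ _ x0 hx0 c0 hkC S Z P hS T hT => ?_⟩
  obtain ⟨h, T', hTT, hT1, hh1, hh2, hr1, hη, herr⟩ := hB B c0 hkC T hT
  have hm0 : 0 < m := NeZero.pos m
  have hM1 : 4 ≤ M ^ 2 := by nlinarith
  have haM : 2 * a ≤ M ^ 2 * a := Nat.mul_le_mul_right a (by omega)
  have hk0 : 0 < Fintype.card B := Fintype.card_pos_iff.mpr ⟨0⟩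
  have hk0' : (0 : ℝ) < Fintype.card B := by exact_mod_cast hk0
  have hcol := collisions_le M m a C (Fintype.card B) ha hk0 (by omega)
  have hq2 : 2 ≤ Fintype.card F := Fintype.one_lt_card
  have hq0 : (0 : ℝ) < Fintype.card F := by exact_mod_cast (by omega : 0 < Fintype.card F)
  have hL0 : (0 : ℝ) < Fintype.card (Word (5 * M ^ 2) m B) := by
    exact_mod_cast (by omega : 0 < Fintype.card (Word (5 * M ^ 2) m B))
  have haR : (1 : ℝ) ≤ a := by exact_mod_cast ha
  have hh0 : 0 < h := by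
    by_contra hcon
    have : h = 0 := by omega
    rw [this, zero_mul] at hh2
    omega
  have hh0' : (0 : ℝ) < h := by exact_mod_cast hh0
  have hnm : ((M ^ 2 * a : ℕ) : ℝ) * m / (a + 1) ≤ (M ^ 2 * m : ℕ) := by
    rw [div_le_iff₀ (by linarith)]
    push_cast
    have : (0 : ℝ) ≤ (M : ℝ) ^ 2 * m := by positivity
    nlinarith
  refine ⟨fun Acc hAcc hP => ?_, fun φ p r hφ hpr => ?_, fun Y hY => ?_⟩
  · have h1 := Pool.Agent.Helper78.NQ.main_bound (d := d) P g x0 hx0 h T' a a (M * a) (M ^ 2 * a / 2) c0 hg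
      (by omega) hS Acc hAcc hP hh1 hh2 hT1 _ rfl hη (Nat.mul_le_mul_right a hM) (Nat.mul_div_le _ _)
    refine (card_mono fun I hI => ⟨hI.1, fun l z hl => (hI.2 l z hl).trans hTT⟩).trans (h1.trans ?_)
    refine mul_le_mul_of_nonneg_right ?_ (Nat.cast_nonneg _)
    exact add_le_add hcol (herr S hS)
  · have h1 := Pool.Agent.Helper98.NQ.fun_bound (d := d) P g x0 hx0 h T' a a (M * a) (M ^ 2 * a / 2) c0 hg
      (by omega) hS φ p hφ r (by
        have e1 : Fintype.card (Word (5 * M ^ 2) m B) ^ r ≤ (h * Fintype.card F) ^ r := Nat.pow_le_pow_left hh2.le r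
        calc p * (Fintype.card F * Fintype.card (Word (5 * M ^ 2) m B)) ^ r
            = p * Fintype.card F ^ r * Fintype.card (Word (5 * M ^ 2) m B) ^ r := by rw [mul_pow]; ring
          _ ≤ p * Fintype.card F ^ r * (h * Fintype.card F) ^ r := Nat.mul_le_mul_left _ e1
          _ = p * Fintype.card F ^ (2 * r) * h ^ r := by rw [mul_pow, two_mul, pow_add]; ring
          _ ≤ Fintype.card B * h ^ r := Nat.mul_le_mul_right _ hpr)
      hh1 hh2.le hT1 _ rfl hη (Nat.mul_le_mul_right a hM) (Nat.mul_div_le _ _)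
    refine (card_mono fun I hI => ⟨hI.1, fun l z hl => ⟨(hI.2 l z hl).1, (hI.2 l z hl).2.trans hTT⟩⟩).trans
      (h1.trans ?_)
    refine mul_le_mul_of_nonneg_right ?_ (Nat.cast_nonneg _)
    refine add_le_add (add_le_add hcol ?_) (herr S hS)
    have e2 : (Fintype.card (Word (5 * M ^ 2) m B) : ℝ) / (h * Fintype.card F) ≤ 1 / (1 + Fintype.card F * δ / 4) := by
      rw [div_le_div_iff₀ (by positivity) (by positivity)]
      rw [le_div_iff₀ hL0] at hr1
      have e3 : (1 / (Fintype.card F : ℝ) + δ / 4) * Fintype.card (Word (5 * M ^ 2) m B) * Fintype.card F =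
          (1 + Fintype.card F * δ / 4) * Fintype.card (Word (5 * M ^ 2) m B) := by
        field_simp
      nlinarith [mul_le_mul_of_nonneg_right hr1 hq0.le]
    have e4 : ((Fintype.card (Word (5 * M ^ 2) m B) : ℝ) / (h * Fintype.card F)) ^ r ≤
        1 / (1 + Fintype.card F * δ / 4) ^ r := by
      rw [← one_div_pow]
      exact pow_le_pow_left₀ (by positivity) e2 r
    have e5 : (8 : ℝ) * (M ^ 2 * m : ℕ) ≤ C := by
      have e6 : 8 * (M ^ 2 * m) ≤ C := by
        have e7 : m ≤ m ^ 2 := Nat.le_self_pow (by norm_num) m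
        calc 8 * (M ^ 2 * m) ≤ 4 * (4 * M ^ 2 * m) := by nlinarith
          _ ≤ 4 * (M ^ 2 * M ^ 2 * m ^ 2) :=
            Nat.mul_le_mul_left _ (Nat.mul_le_mul (Nat.mul_le_mul_right _ hM1) e7)
          _ = 4 * M ^ 4 * m ^ 2 := by ring
          _ ≤ C := by omega
      exact_mod_cast e6
    have e8 : (0 : ℝ) ≤ 1 / (1 + Fintype.card F * δ / 4) ^ r := by positivity
    have e9 : (0 : ℝ) ≤ ((M ^ 2 * a : ℕ) : ℝ) * m / (a + 1) := by positivity
    calc ((M ^ 2 * a : ℕ) : ℝ) * m / (a + 1) *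
          (8 * ((Fintype.card (Word (5 * M ^ 2) m B) : ℝ) / (h * Fintype.card F)) ^ r)
        ≤ (M ^ 2 * m : ℕ) * (8 * (1 / (1 + Fintype.card F * δ / 4) ^ r)) := by gcongr
      _ = 8 * (M ^ 2 * m : ℕ) * (1 / (1 + Fintype.card F * δ / 4) ^ r) := by ring
      _ ≤ C * (1 / (1 + Fintype.card F * δ / 4) ^ r) := mul_le_mul_of_nonneg_right e5 e8
      _ = C / (1 + Fintype.card F * δ / 4) ^ r := by rw [mul_one_div]
  · have hy1 : (Nat.card Y : ℝ) / Fintype.card B ≤ 1 / Fintype.card F := by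
      rw [div_le_div_iff₀ hk0' hq0]
      have : (Fintype.card F : ℝ) * Nat.card Y ≤ Fintype.card B := by exact_mod_cast hY
      linarith
    have h1 := Pool.Agent.Helper98.NQ.dec_bound (d := d) P g x0 hx0 h T' a a (M * a) (M ^ 2 * a / 2) c0 hg
      (by omega) hS Y _ rfl (by linarith) hh1 hh2.le hT1 _ rfl hη (Nat.mul_le_mul_right a hM) (Nat.mul_div_le _ _)
    refine (card_mono fun I hI => ⟨hI.1, hI.2.1, fun l z hl => (hI.2.2 l z hl).trans hTT⟩).trans (h1.trans ?_)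
    refine add_le_add (mul_le_mul_of_nonneg_right (add_le_add hcol (herr S hS)) (Nat.cast_nonneg _)) ?_
    refine mul_le_mul_of_nonneg_right ?_ (Nat.cast_nonneg _)
    refine le_trans ?_ hC2
    have e1 : δ / 4 ≤ (h : ℝ) / Fintype.card (Word (5 * M ^ 2) m B) - Nat.card Y / Fintype.card B := by linarith
    have e2 : ((M ^ 2 * a : ℕ) : ℝ) * m / ((a + 1) * ((h : ℝ) / Fintype.card (Word (5 * M ^ 2) m B) -
        Nat.card Y / Fintype.card B)) ≤ ((M ^ 2 * a : ℕ) : ℝ) * m / ((a + 1) * (δ / 4)) := by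
      refine div_le_div_of_nonneg_left (by positivity) (by positivity) ?_
      exact mul_le_mul_of_nonneg_left e1 (by linarith)
    refine e2.trans ?_
    have e3 : ((M ^ 2 * a : ℕ) : ℝ) * m / ((a + 1) * (δ / 4)) = ((M ^ 2 * a : ℕ) : ℝ) * m / (a + 1) * (4 / δ) := by
      field_simp
    rw [e3]
    exact mul_le_mul_of_nonneg_right hnm (by positivity)

end Pool.Agent.Helper99.NQ
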