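import Pool.Agent.Helper78.NQ.Main
import Pool.Agent.Helper84.NQ.Perms5

/-!
# The choice of the parameters
-/

set_option autoImplicit false

namespace Pool.Agent.Helper99.NQ

open Finset Pool.Agent.Helper19.NF Pool.Agent.Helper74.NW
open Pool.Agent.Helper74.NE (fine fine_apply)

/-- The numbers `h` and `T`. `δ' ` is the part which is not needed. -/
theorem exists_h_T (q : ℕ) (hq : 2 ≤ q) (δ : ℝ) (hδ : 0 < δ) (hδ1 : δ ≤ 1 - 1 / q) (L N : ℕ) (hL : 6 ≤ L)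
    (hL2 : 4 / δ ≤ L) (hN : 4 / δ ≤ N) (s : ℕ) (hs : s ≤ 1) :
    ∃ h T : ℕ, h + 1 ≤ L ∧ L < h * q ∧ T ≤ N ∧ (1 : ℝ) / q + δ / 4 ≤ (h : ℝ) / L ∧ (h : ℝ) / L ≤ 1 ∧
      (∀ x : ℕ, (x : ℝ) ≤ (1 - 1 / q - δ) * N → x + s ≤ T) ∧
      1 + δ / 8 ≤ 1 + (1 - (T : ℝ) / N - (h : ℝ) / L) / 2 := by
  have hq0 : (0 : ℝ) < q := by exact_mod_cast (by omega : 0 < q)
  have hq2 : (2 : ℝ) ≤ q := by exact_mod_cast hq
  have hL0 : (0 : ℝ) < L := by exact_mod_cast (by omega : 0 < L)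
  have hL6 : (6 : ℝ) ≤ L := by exact_mod_cast hL
  have hN0 : (0 : ℝ) < N := lt_of_lt_of_le (by positivity) hN
  have hq1 : (1 : ℝ) / q ≤ 1 / 2 := one_div_le_one_div_of_le (by norm_num) hq2
  have hqp : (0 : ℝ) < 1 / q := by positivity
  have h4 : 4 ≤ δ * L := by
    rw [div_le_iff₀ hδ] at hL2
    linarith
  have h4N : 4 ≤ δ * N := by
    rw [div_le_iff₀ hδ] at hN
    linarith
  refine ⟨⌈(1 / q + δ / 4) * L⌉₊, ⌊(1 - 1 / q - δ) * N⌋₊ + s, ?_, ?_, ?_, ?_, ?_, ?_, ?_⟩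
  · have h1 : (⌈(1 / (q : ℝ) + δ / 4) * L⌉₊ : ℝ) < (1 / q + δ / 4) * L + 1 := Nat.ceil_lt_add_one (by positivity)
    have h2 : (⌈(1 / (q : ℝ) + δ / 4) * L⌉₊ : ℝ) + 1 < L + 1 := by
      have h3 : (1 / (q : ℝ) + δ / 4) * L + 2 ≤ L + 1 := by
        have h5 : (1 / (q : ℝ) + δ / 4) ≤ 1 / q + (1 - 1 / q) / 4 := by linarith
        have h6 : (1 / (q : ℝ) + δ / 4) ≤ 5 / 8 := by linarith
        nlinarith
      linarith
    have h3 : ⌈(1 / (q : ℝ) + δ / 4) * L⌉₊ + 1 < L + 1 := by exact_mod_cast h2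
    omega
  · have h1 : (1 / (q : ℝ) + δ / 4) * L ≤ ⌈(1 / (q : ℝ) + δ / 4) * L⌉₊ := Nat.le_ceil _
    have h2 : (L : ℝ) < ⌈(1 / (q : ℝ) + δ / 4) * L⌉₊ * q := by
      have h3 : (1 / (q : ℝ) + δ / 4) * L * q ≤ ⌈(1 / (q : ℝ) + δ / 4) * L⌉₊ * q :=
        mul_le_mul_of_nonneg_right h1 hq0.le
      have h5 : (1 / (q : ℝ) + δ / 4) * L * q = L + δ * L * q / 4 := by
        field_simp
      have h6 : 0 < δ * L * q / 4 := by positivity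
      linarith
    exact_mod_cast h2
  · have h1 : (⌊(1 - 1 / (q : ℝ) - δ) * N⌋₊ : ℝ) ≤ (1 - 1 / q - δ) * N :=
      Nat.floor_le (mul_nonneg (by linarith) hN0.le)
    have h2 : (⌊(1 - 1 / (q : ℝ) - δ) * N⌋₊ : ℝ) + s ≤ N := by
      have h3 : (s : ℝ) ≤ 1 := by exact_mod_cast hs
      nlinarith
    exact_mod_cast h2
  · rw [le_div_iff₀ hL0]
    exact Nat.le_ceil _
  · rw [div_le_one hL0]
    have h1 : (⌈(1 / (q : ℝ) + δ / 4) * L⌉₊ : ℝ) < (1 / q + δ / 4) * L + 1 := Nat.ceil_lt_add_one (by positivity)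
    have h6 : (1 / (q : ℝ) + δ / 4) ≤ 5 / 8 := by linarith
    nlinarith
  · intro x hx
    have h1 := Nat.le_floor hx
    omega
  · have h1 : (⌈(1 / (q : ℝ) + δ / 4) * L⌉₊ : ℝ) / L ≤ 1 / q + δ / 2 := by
      rw [div_le_iff₀ hL0]
      have h2 : (⌈(1 / (q : ℝ) + δ / 4) * L⌉₊ : ℝ) < (1 / q + δ / 4) * L + 1 := Nat.ceil_lt_add_one (by positivity)
      nlinarith
    have h2 : ((⌊(1 - 1 / (q : ℝ) - δ) * N⌋₊ + s : ℕ) : ℝ) / N ≤ 1 - 1 / q - δ + δ / 4 := by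
      rw [div_le_iff₀ hN0]
      have h3 : (⌊(1 - 1 / (q : ℝ) - δ) * N⌋₊ : ℝ) ≤ (1 - 1 / q - δ) * N :=
        Nat.floor_le (mul_nonneg (by linarith) hN0.le)
      have h5 : (s : ℝ) ≤ 1 := by exact_mod_cast hs
      push_cast
      nlinarith
    linarith

/-- The statement of `numbers` (helper70). -/
def Numbers : Prop := ∀ (q : ℕ), 2 ≤ q → ∀ δ : ℝ, 0 < δ → ∃ M m d : ℕ, 2 ≤ M ∧ 1 ≤ m ∧ 1 ≤ d ∧ ∀ a : ℕ, 1 ≤ a →
  ∀ r η : ℝ, 1 / q + δ / 4 ≤ r → r ≤ 1 → 1 + δ / 8 ≤ η →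
    (a : ℝ) * (2 ^ a) ^ 3 * 2 ^ (M ^ 2 * a) * (6 * M ^ 2 * m) ^ (2 * (M ^ 2 * a)) *
      err (M ^ 2 * a) m d a (M * a) (M ^ 2 * a / 2) q r η ≤ 1 / 2 ^ a

theorem err_nonneg (n m d a κ j : ℕ) (q r η : ℝ) (hq : 0 ≤ q) (hr : 0 ≤ r) (hη : 0 ≤ η) : 0 ≤ err n m d a κ j q r η := by
  unfold err
  positivity

section

variable {F : Type} [Field F] [Fintype F]

/-- The choice of all parameters. -/
theorem exists_params (hnum : Numbers) (δ : ℝ) (hδ : 0 < δ) :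
    ∃ (C M m d : ℕ) (_ : NeZero m), 2 ≤ M ∧ 4 * M ^ 4 * m ^ 2 + 6 ≤ C ∧ (M ^ 2 * m : ℕ) * (4 / δ) ≤ C ∧
      ∀ a : ℕ, 1 ≤ a →
      ∃ g : Fin (5 * M ^ 2) → Equiv.Perm (Fin (M ^ 2 * a)),
      (∀ X : Finset (Fin (M ^ 2 * a)), M ^ 2 * a ≤ 4 * X.card →
        M ^ 2 * a ≤ (X.biUnion (fun u => univ.image (fun s => g s u))).card + a) ∧
      ∀ (B : Type) [AddCommGroup B] [Module F B] [Fintype B] (_ : Fin (5 * M ^ 2) × Fin m),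
      C * a ^ 4 ≤ Fintype.card B →
      ∀ (T : ℕ), (T : ℝ) ≤ (1 - 1 / Fintype.card F - δ) * Fintype.card (B × Word (5 * M ^ 2) m B) →
      ∃ h T' : ℕ, T + 1 ≤ T' ∧ T' ≤ Fintype.card (B × Word (5 * M ^ 2) m B) ∧
        h + 1 ≤ Fintype.card (Word (5 * M ^ 2) m B) ∧ Fintype.card (Word (5 * M ^ 2) m B) < h * Fintype.card F ∧
        1 / (Fintype.card F : ℝ) + δ / 4 ≤ (h : ℝ) / Fintype.card (Word (5 * M ^ 2) m B) ∧
        1 ≤ 1 + (1 - (T' : ℝ) / Fintype.card (B × Word (5 * M ^ 2) m B) -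
          (h : ℝ) / Fintype.card (Word (5 * M ^ 2) m B)) / 2 ∧
        ∀ S : ℕ, S ≤ 2 ^ a → (a : ℝ) * S ^ 3 * 2 ^ (M ^ 2 * a) * ((5 * M ^ 2 : ℕ) * m) ^ (2 * (M ^ 2 * a)) *
          err (M ^ 2 * a) m d a (M * a) (M ^ 2 * a / 2) (Fintype.card F)
            ((h : ℝ) / Fintype.card (Word (5 * M ^ 2) m B))
            (1 + (1 - (T' : ℝ) / Fintype.card (B × Word (5 * M ^ 2) m B) -
              (h : ℝ) / Fintype.card (Word (5 * M ^ 2) m B)) / 2) ≤ 1 / 2 ^ a := by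
  have hq2 : 2 ≤ Fintype.card F := Fintype.one_lt_card
  obtain ⟨M, m, d, hM, hm, hd, hN⟩ := hnum (Fintype.card F) hq2 δ hδ
  have hmz : NeZero m := ⟨by omega⟩
  have hMm : 1 ≤ M ^ 2 * m := Nat.mul_pos (by positivity) (by omega)
  refine ⟨4 * M ^ 4 * m ^ 2 + M ^ 2 * m * ⌈4 / δ⌉₊ + 6, M, m, d, hmz, hM, by omega, ?_, fun a ha => ?_⟩
  · have h1 : ((M ^ 2 * m : ℕ) : ℝ) * (4 / δ) ≤ (M ^ 2 * m : ℕ) * (⌈4 / δ⌉₊ : ℝ) :=
      mul_le_mul_of_nonneg_left (Nat.le_ceil _) (Nat.cast_nonneg _)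
    refine h1.trans ?_
    exact_mod_cast (by omega : M ^ 2 * m * ⌈4 / δ⌉₊ ≤ 4 * M ^ 4 * m ^ 2 + M ^ 2 * m * ⌈4 / δ⌉₊ + 6)
  obtain ⟨g, hg⟩ := Pool.Agent.Helper84.NQ.exists_perms5 M a (by omega) ha
  refine ⟨g, hg, fun B _ _ _ c0 hk T hT => ?_⟩
  set k := Fintype.card B with hkdef
  set L := Fintype.card (Word (5 * M ^ 2) m B) with hLdef
  set N := Fintype.card (B × Word (5 * M ^ 2) m B) with hNdef
  have ha4 : 1 ≤ a ^ 4 := Nat.one_le_pow _ _ ha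
  have hk1 : 4 * M ^ 4 * m ^ 2 + ⌈4 / δ⌉₊ + 6 ≤ k := by
    refine le_trans ?_ (le_trans (Nat.le_mul_of_pos_right _ (by omega)) hk)
    have h1 := Nat.le_mul_of_pos_left ⌈4 / δ⌉₊ hMm
    omega
  have hkL : k ≤ L := by
    rw [hLdef, Fintype.card_fun]
    refine Nat.le_self_pow ?_ _
    have : Nonempty (Fin (5 * M ^ 2) × Fin m) := ⟨c0⟩
    exact Fintype.card_ne_zero
  have hLN : L ≤ N := by
    rw [hNdef, Fintype.card_prod]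
    refine Nat.le_mul_of_pos_left _ ?_
    exact Fintype.card_pos_iff.mpr ⟨0⟩
  have hk4 : 4 / δ ≤ (k : ℝ) := (Nat.le_ceil _).trans (by exact_mod_cast (by omega : ⌈4 / δ⌉₊ ≤ k))
  have hkL' : (k : ℝ) ≤ L := by exact_mod_cast hkL
  have hLN' : (L : ℝ) ≤ N := by exact_mod_cast hLN
  have hN0 : (0 : ℝ) < N := by exact_mod_cast (by omega : 0 < N)
  have hδ1 : δ ≤ 1 - 1 / (Fintype.card F : ℝ) := by
    by_contra hcon
    rw [not_le] at hcon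
    have h1 : (T : ℝ) < 0 := by
      refine lt_of_le_of_lt hT ?_
      refine mul_neg_of_neg_of_pos (by linarith) hN0
    exact absurd (Nat.cast_nonneg T) (not_le.mpr h1)
  obtain ⟨h, T', hh1, hh2, hT1, hr1, hr2, hT2, hη⟩ := exists_h_T (Fintype.card F) hq2 δ hδ hδ1 L N (by omega)
    (hk4.trans hkL') (hk4.trans (hkL'.trans hLN')) 1 le_rfl
  refine ⟨h, T', hT2 T hT, hT1, hh1, hh2, hr1, by linarith, fun S hS => ?_⟩
  refine le_trans ?_ (hN a ha _ _ hr1 hr2 hη)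
  have he : 0 ≤ err (M ^ 2 * a) m d a (M * a) (M ^ 2 * a / 2) (Fintype.card F) ((h : ℝ) / L)
      (1 + (1 - (T' : ℝ) / N - (h : ℝ) / L) / 2) :=
    err_nonneg _ _ _ _ _ _ _ _ _ (Nat.cast_nonneg _) (by positivity) (by linarith)
  refine mul_le_mul_of_nonneg_right ?_ he
  push_cast
  have h3 : (S : ℝ) ≤ 2 ^ a := by exact_mod_cast hS
  gcongr
  norm_num

/-- The collisions. -/
theorem collisions_le (M m a C k : ℕ) (ha : 1 ≤ a) (hk : 0 < k) (hC : 4 * M ^ 4 * m ^ 2 ≤ C) :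
    (((a : ℝ) + 1) * ((M ^ 2 * a : ℕ) * m)) ^ 2 / k ≤ C * a ^ 4 / k := by
  have hk0 : (0 : ℝ) < k := by exact_mod_cast hk
  have haR : (1 : ℝ) ≤ a := by exact_mod_cast ha
  refine div_le_div_of_nonneg_right ?_ hk0.le
  push_cast
  have h3 : ((a : ℝ) + 1) ≤ 2 * a := by linarith
  have h4 : (((a : ℝ) + 1) * (M ^ 2 * a * m)) ^ 2 ≤ (2 * a * (M ^ 2 * a * m)) ^ 2 := by gcongr
  refine h4.trans ?_
  have h5 : (2 * (a : ℝ) * (M ^ 2 * a * m)) ^ 2 = 4 * M ^ 4 * m ^ 2 * a ^ 4 := by ring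
  rw [h5]
  refine mul_le_mul_of_nonneg_right ?_ (by positivity)
  exact_mod_cast hC

end

end Pool.Agent.Helper99.NQ
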